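import Mathlib
import Pool.Agent.H58P.Rad

set_option autoImplicit false

/-!
# Valuations over a prime which is unramified in a number field
-/

namespace Pool.Agent.Y726

open NumberField IsDedekindDomain WithZero
open Pool.Agent.H58P (Qb RadAt squarefree_span)

/-- `q` is a uniformizer for all valuations of `F` over `q` -/
def UnramAt (F : IntermediateField ℚ Qb) (q : ℕ) : Prop :=
  ∀ V : ValuationSubring Qb, V.valuation (q : Qb) < 1 → ∀ z ∈ F, z ≠ 0 →
    ∃ m : ℤ, V.valuation z = V.valuation (q : Qb) ^ m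

lemma integral_mem (V : ValuationSubring Qb) (x : Qb) (hx : IsIntegral ℤ x) : x ∈ V := by
  have h3 : IsIntegral V x := hx.tower_top
  obtain ⟨z, hz⟩ := IsIntegrallyClosed.isIntegral_iff.mp h3
  rw [← hz]
  exact z.2

lemma integral_le (V : ValuationSubring Qb) (x : Qb) (hx : IsIntegral ℤ x) :
    V.valuation x ≤ 1 := (ValuationSubring.valuation_le_one_iff V x).mpr (integral_mem V x hx)

lemma intCast_integral (n : ℤ) : IsIntegral ℤ (n : Qb) := by
  have := isIntegral_algebraMap (R := ℤ) (A := Qb) (x := n)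
  simpa using this

/-- the ring of integers maps to the valuation ring -/
noncomputable def toV (F : IntermediateField ℚ Qb) (V : ValuationSubring Qb) : 𝓞 F →+* V :=
  ((algebraMap F Qb).comp (algebraMap (𝓞 F) F)).codRestrict V.toSubring fun x =>
    integral_mem V _ (x.isIntegral_coe.map (algebraMap F Qb).toIntAlgHom)

lemma toV_coe (F : IntermediateField ℚ Qb) (V : ValuationSubring Qb) (x : 𝓞 F) :
    ((toV F V x : V) : Qb) = ((x : F) : Qb) := rfl

/-- the prime ideal of `V` in the ring of integers -/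
noncomputable def primeOf (F : IntermediateField ℚ Qb) (V : ValuationSubring Qb) : Ideal (𝓞 F) :=
  (IsLocalRing.maximalIdeal V).comap (toV F V)

lemma mem_primeOf (F : IntermediateField ℚ Qb) (V : ValuationSubring Qb) (x : 𝓞 F) :
    x ∈ primeOf F V ↔ V.valuation ((x : F) : Qb) < 1 := by
  unfold primeOf
  rw [Ideal.mem_comap, ValuationSubring.valuation_lt_one_iff V (toV F V x), toV_coe]

lemma notMem_primeOf (F : IntermediateField ℚ Qb) (V : ValuationSubring Qb) (x : 𝓞 F)
    (h : x ∉ primeOf F V) : V.valuation ((x : F) : Qb) = 1 := by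
  rw [mem_primeOf, not_lt] at h
  refine le_antisymm ?_ h
  exact integral_le V _ (x.isIntegral_coe.map (algebraMap F Qb).toIntAlgHom)

lemma unramAt_of_not_dvd (F : IntermediateField ℚ Qb) [NumberField F] (q : ℕ) (hq : q.Prime)
    (h : ¬ (q : ℤ) ∣ discr F) : UnramAt F q := by
  intro V hV z hz hz0
  have hqmem : (q : 𝓞 F) ∈ primeOf F V := by
    rw [mem_primeOf]
    have : (((q : 𝓞 F) : F) : Qb) = (q : Qb) := by push_cast; rfl
    rw [this]
    exact hV
  have hq0 : (q : 𝓞 F) ≠ 0 := by exact_mod_cast hq.ne_zero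
  have hqb0 : (q : Qb) ≠ 0 := by exact_mod_cast hq.ne_zero
  let v : HeightOneSpectrum (𝓞 F) :=
    { asIdeal := primeOf F V
      isPrime := Ideal.comap_isPrime _ _
      ne_bot := fun hb => hq0 (by rw [hb] at hqmem; exact hqmem) }
  have hvq1 : v.intValuation (q : 𝓞 F) = exp (-(1 : ℤ)) := by
    have h1 : v.intValuation (q : 𝓞 F) ≤ exp (-((1 : ℕ) : ℤ)) := by
      rw [HeightOneSpectrum.intValuation_le_pow_iff_mem, pow_one]
      exact hqmem
    have h2 : ¬ v.intValuation (q : 𝓞 F) ≤ exp (-((2 : ℕ) : ℤ)) := by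
      rw [HeightOneSpectrum.intValuation_le_pow_iff_dvd, sq]
      intro hd
      have h3 := squarefree_span q hq h v.asIdeal hd
      exact v.isPrime.ne_top (Ideal.isUnit_iff.mp h3)
    obtain ⟨k, hk⟩ : ∃ k : ℤ, v.intValuation (q : 𝓞 F) = exp k := by
      refine ⟨WithZero.log (v.intValuation (q : 𝓞 F)), ?_⟩
      rw [WithZero.exp_log]
      exact v.intValuation_ne_zero _ hq0
    rw [hk] at h1 h2 ⊢
    rw [exp_le_exp] at h1 h2
    push_cast at h1 h2
    have : k = -1 := by omega
    rw [this]
  obtain ⟨k, hk⟩ : ∃ k : ℤ, v.valuation F (⟨z, hz⟩ : F) = exp k := by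
    refine ⟨WithZero.log (v.valuation F (⟨z, hz⟩ : F)), ?_⟩
    rw [WithZero.exp_log]
    rw [Valuation.ne_zero_iff]
    intro h0
    exact hz0 (congrArg Subtype.val h0)
  have hvqF : v.valuation F (q : F) = exp (-(1 : ℤ)) := by
    have := v.valuation_of_algebraMap (K := F) (q : 𝓞 F)
    rw [← hvq1, ← this]
    simp
  -- the element `z q ^ k` is a unit
  set w : F := (⟨z, hz⟩ : F) * (q : F) ^ k with hw
  have hvw : v.valuation F w = 1 := by
    rw [hw, map_mul, map_zpow₀, hk, hvqF, ← exp_zsmul, ← exp_add]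
    simp
  obtain ⟨n, ⟨d, hd⟩, hnd⟩ := v.exists_primeCompl_mul_eq_of_integer (K := F) w hvw.le
  have hd' : d ∉ primeOf F V := hd
  have hn' : n ∉ primeOf F V := by
    intro hn
    have h1 : v.valuation F (algebraMap (𝓞 F) F n) < 1 := (v.valuation_lt_one_iff_mem n).mpr hn
    rw [← hnd, map_mul, hvw, one_mul] at h1
    exact hd ((v.valuation_lt_one_iff_mem d).mp h1)
  have h1 := notMem_primeOf F V d hd'
  have h2 := notMem_primeOf F V n hn'
  have h3 : ((w : F) : Qb) * ((d : F) : Qb) = ((n : F) : Qb) := by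
    have := congrArg (fun x : F => (x : Qb)) hnd
    push_cast at this
    exact this
  have h4 : V.valuation ((w : F) : Qb) = 1 := by
    have := congrArg V.valuation h3
    rwa [map_mul, h1, h2, mul_one] at this
  have h5 : ((w : F) : Qb) = z * (q : Qb) ^ k := by
    rw [hw]
    push_cast
    rfl
  rw [h5, map_mul, map_zpow₀] at h4
  refine ⟨-k, ?_⟩
  rw [zpow_neg]
  exact eq_inv_of_mul_eq_one_left h4

/-- all large primes are unramified -/
lemma exists_unramAt (F : IntermediateField ℚ Qb) [FiniteDimensional ℚ F] :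
    ∃ B : ℕ, ∀ q : ℕ, q.Prime → B < q → UnramAt F q := by
  have hNF : NumberField F :=
    { to_charZero := inferInstance
      to_finiteDimensional := inferInstance }
  refine ⟨(discr F).natAbs, fun a ha hB => unramAt_of_not_dvd F a ha fun hdvd => ?_⟩
  have h1 : a ∣ (discr F).natAbs := by
    rwa [← Int.natCast_dvd]
  have h2 : (discr F).natAbs ≠ 0 := Int.natAbs_ne_zero.mpr (discr_ne_zero F)
  exact absurd (Nat.le_of_dvd (Nat.pos_of_ne_zero h2) h1) (by omega)

end Pool.Agent.Y726
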