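import Mathlib
import Pool.Agent.Y726.Unram
import Pool.Agent.H58P.Dyn

set_option autoImplicit false

/-!
# The valuations over `q` of the field generated by a `q`-th root of unity
-/

namespace Pool.Agent.Y726

open Polynomial IntermediateField
open Pool.Agent.H58P (Qb)

lemma val_one_sub_le (V : ValuationSubring Qb) {q : ℕ} {ζ μ : Qb} (hq : 0 < q)
    (hζ : IsPrimitiveRoot ζ q) (hμ : μ ^ q = 1) :
    V.valuation (1 - μ) ≤ V.valuation (1 - ζ) := by
  have : NeZero q := ⟨hq.ne'⟩
  obtain ⟨i, -, rfl⟩ := hζ.eq_pow_of_pow_eq_one hμ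
  rw [← mul_neg_geom_sum, map_mul]
  have h1 : V.valuation (∑ i ∈ Finset.range i, ζ ^ i) ≤ 1 := by
    apply integral_le
    exact IsIntegral.sum _ fun j _ => (hζ.isIntegral hq).pow j
  calc _ ≤ V.valuation (1 - ζ) * 1 := by gcongr
    _ = _ := mul_one _

lemma val_one_sub_eq (V : ValuationSubring Qb) {q : ℕ} {ζ μ : Qb} (hq : 0 < q)
    (hζ : IsPrimitiveRoot ζ q) (hμ : IsPrimitiveRoot μ q) :
    V.valuation (1 - μ) = V.valuation (1 - ζ) :=
  le_antisymm (val_one_sub_le V hq hζ hμ.pow_eq_one) (val_one_sub_le V hq hμ hζ.pow_eq_one)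

lemma val_pow (V : ValuationSubring Qb) {q : ℕ} {ζ : Qb} (hq : q.Prime)
    (hζ : IsPrimitiveRoot ζ q) : V.valuation (1 - ζ) ^ (q - 1) = V.valuation (q : Qb) := by
  have : Fact q.Prime := ⟨hq⟩
  have h1 : eval 1 (cyclotomic q Qb) = (q : Qb) := eval_one_cyclotomic_prime
  rw [cyclotomic_eq_prod_X_sub_primitiveRoots hζ, eval_prod] at h1
  rw [← h1, map_prod]
  have h2 : ∀ μ ∈ primitiveRoots q Qb, V.valuation (eval 1 (X - C μ)) = V.valuation (1 - ζ) := by
    intro μ hμ
    rw [eval_sub, eval_X, eval_C]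
    exact val_one_sub_eq V hq.pos hζ (isPrimitiveRoot_of_mem_primitiveRoots hμ)
  rw [Finset.prod_congr rfl h2, Finset.prod_const, hζ.card_primitiveRoots, Nat.totient_prime hq]

section

variable (V : ValuationSubring Qb) (F : IntermediateField ℚ Qb) {q : ℕ}

/-- powers of a value smaller than one -/
lemma zpow_inj {Γ : Type*} [LinearOrderedCommGroupWithZero Γ] {g : Γ} (h0 : g ≠ 0) (h1 : g < 1)
    {m n : ℤ} (h : g ^ m = g ^ n) : m = n := by
  have hpos : 0 < g := zero_lt_iff.mpr h0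
  rcases lt_trichotomy m n with hl | hl | hl
  · have := (zpow_lt_zpow_iff_right_of_lt_one₀ hpos h1).mpr hl
    rw [h] at this
    exact absurd this (lt_irrefl _)
  · exact hl
  · have := (zpow_lt_zpow_iff_right_of_lt_one₀ hpos h1).mpr hl
    rw [h] at this
    exact absurd this (lt_irrefl _)

variable (hF : UnramAt F q) (hq : q.Prime) (hV : V.valuation (q : Qb) < 1)

include hF hq hV

/-- the terms of an expansion have different values -/
lemma terms_ne {Λ : Qb} (hΛ : V.valuation Λ ^ (q - 1) = V.valuation (q : Qb)) {a b : Qb}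
    (ha : a ∈ F) (hb : b ∈ F) (ha0 : a ≠ 0) (hb0 : b ≠ 0) {i j : ℕ} (hi : i < q - 1)
    (hj : j < q - 1) (hij : i ≠ j) :
    V.valuation a * V.valuation Λ ^ i ≠ V.valuation b * V.valuation Λ ^ j := by
  intro h
  have hq0 : V.valuation (q : Qb) ≠ 0 := by
    rw [Valuation.ne_zero_iff]
    exact_mod_cast hq.ne_zero
  obtain ⟨m, hm⟩ := hF V hV a ha ha0
  obtain ⟨n, hn⟩ := hF V hV b hb hb0
  have h1 := congrArg (fun x => x ^ (q - 1)) h
  simp only [mul_pow] at h1
  rw [← pow_mul, ← pow_mul, mul_comm i, mul_comm j, pow_mul, pow_mul, hΛ, hm, hn] at h1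
  have e : ∀ (k : ℤ) (l : ℕ), (V.valuation (q : Qb) ^ k) ^ (q - 1) * V.valuation (q : Qb) ^ l =
      V.valuation (q : Qb) ^ (k * ((q - 1 : ℕ) : ℤ) + l) := by
    intro k l
    rw [zpow_add₀ hq0, zpow_mul, zpow_natCast, zpow_natCast]
  rw [e, e] at h1
  have h2 := zpow_inj hq0 hV h1
  have h3 : (m - n) * ((q - 1 : ℕ) : ℤ) = (j : ℤ) - i := by linear_combination h2
  have h4 : ((q - 1 : ℕ) : ℤ) ∣ (j : ℤ) - i := ⟨m - n, by rw [← h3]; ring⟩
  have h5 : (j : ℤ) - i = 0 := by
    apply Int.eq_zero_of_abs_lt_dvd h4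
    rw [abs_lt]
    omega
  omega

/-- the value of an expansion -/
lemma val_sum {Λ : Qb} (hΛ : V.valuation Λ ^ (q - 1) = V.valuation (q : Qb)) (a : ℕ → Qb)
    (ha : ∀ i, a i ∈ F) :
    V.valuation (∑ j ∈ Finset.range (q - 1), a j * Λ ^ j) =
      (Finset.range (q - 1)).sup (fun j => V.valuation (a j) * V.valuation Λ ^ j) := by
  classical
  have hq0 : V.valuation (q : Qb) ≠ 0 := by
    rw [Valuation.ne_zero_iff]
    exact_mod_cast hq.ne_zero
  have hq1 : 0 < q - 1 := by have := hq.two_le; omega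
  have hΛ0 : V.valuation Λ ≠ 0 := by
    intro h
    rw [h, zero_pow (by omega)] at hΛ
    exact hq0 hΛ.symm
  obtain ⟨j0, hj0, hmax⟩ := Finset.exists_max_image (Finset.range (q - 1))
    (fun j => V.valuation (a j) * V.valuation Λ ^ j) ⟨0, Finset.mem_range.mpr hq1⟩
  have hsup : (Finset.range (q - 1)).sup (fun j => V.valuation (a j) * V.valuation Λ ^ j) =
      V.valuation (a j0) * V.valuation Λ ^ j0 := by
    apply le_antisymm
    · exact Finset.sup_le hmax
    · exact Finset.le_sup (f := fun j => V.valuation (a j) * V.valuation Λ ^ j) hj0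
  rw [hsup]
  by_cases h0 : a j0 = 0
  · have hall : ∀ j ∈ Finset.range (q - 1), a j * Λ ^ j = 0 := by
      intro j hj
      have h1 := hmax j hj
      rw [h0, map_zero, zero_mul, le_zero_iff] at h1
      rw [← Valuation.zero_iff V.valuation, map_mul, map_pow]
      exact h1
    rw [Finset.sum_eq_zero hall, h0, map_zero, zero_mul]
  · have hT0 : V.valuation (a j0) * V.valuation Λ ^ j0 ≠ 0 :=
      mul_ne_zero ((Valuation.ne_zero_iff _).mpr h0) (pow_ne_zero _ hΛ0)
    rw [← Finset.add_sum_erase _ _ hj0]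
    have h1 : V.valuation (∑ j ∈ (Finset.range (q - 1)).erase j0, a j * Λ ^ j) <
        V.valuation (a j0 * Λ ^ j0) := by
      rw [map_mul, map_pow]
      apply Valuation.map_sum_lt _ hT0
      intro j hj
      rw [Finset.mem_erase] at hj
      rw [map_mul, map_pow]
      refine lt_of_le_of_ne (hmax j hj.2) ?_
      by_cases hj1 : a j = 0
      · rw [hj1, map_zero, zero_mul]
        exact hT0.symm
      · exact terms_ne V F hF hq hV hΛ (ha j) (ha j0) hj1 h0 (Finset.mem_range.mp hj.2)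
          (Finset.mem_range.mp hj0) hj.1
    rw [Valuation.map_add_eq_of_lt_left _ h1, map_mul, map_pow]

/-- the terms of positive degree of an integral expansion are small -/
lemma term_lt {Λ : Qb} (hΛ : V.valuation Λ ^ (q - 1) = V.valuation (q : Qb)) (a : ℕ → Qb)
    (ha : ∀ i, a i ∈ F)
    (h : V.valuation (∑ j ∈ Finset.range (q - 1), a j * Λ ^ j) ≤ 1) (j : ℕ)
    (hj : j < q - 1) (hj1 : 1 ≤ j) : V.valuation (a j) * V.valuation Λ ^ j < 1 := by
  rw [val_sum V F hF hq hV hΛ a ha] at h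
  have h1 : V.valuation (a j) * V.valuation Λ ^ j ≤ 1 :=
    le_trans (Finset.le_sup (f := fun j => V.valuation (a j) * V.valuation Λ ^ j)
      (Finset.mem_range.mpr hj)) h
  refine lt_of_le_of_ne h1 ?_
  by_cases h0 : a j = 0
  · rw [h0, map_zero, zero_mul]
    exact zero_ne_one
  · have := terms_ne V F hF hq hV hΛ (ha j) F.one_mem h0 one_ne_zero hj (by omega : 0 < q - 1)
      (by omega)
    rw [map_one, one_mul, pow_zero] at this
    exact this

end

/-- elements of the field generated by a root of unity have an expansion -/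
lemma exists_expansion (F : IntermediateField ℚ Qb) {q : ℕ} (hq : q.Prime) {ζ : Qb}
    (hζ : IsPrimitiveRoot ζ q) (z : Qb) (hz : z ∈ F ⊔ IntermediateField.adjoin ℚ {ζ}) :
    ∃ a : ℕ → Qb, (∀ i, a i ∈ F) ∧ z = ∑ j ∈ Finset.range (q - 1), a j * (1 - ζ) ^ j := by
  have hint : IsIntegral F (1 - ζ) := by
    have h1 : IsIntegral ℤ ζ := hζ.isIntegral hq.pos
    exact (isIntegral_one.sub h1).tower_top
  have h1 : IntermediateField.adjoin ℚ {ζ} ≤ IntermediateField.adjoin ℚ {1 - ζ} := by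
    rw [adjoin_simple_le_iff]
    have h2 := mem_adjoin_simple_self ℚ (1 - ζ)
    have h3 := sub_mem (IntermediateField.adjoin ℚ {1 - ζ}).one_mem h2
    simpa using h3
  have hz' : z ∈ IntermediateField.adjoin F {1 - ζ} := by
    have h2 := sup_le_sup_left h1 F hz
    rwa [← restrictScalars_adjoin_eq_sup, mem_restrictScalars] at h2
  have h2 : z ∈ (IntermediateField.adjoin F {1 - ζ}).toSubalgebra := hz'
  rw [adjoin_simple_toSubalgebra_of_isAlgebraic hint.isAlgebraic,
    Algebra.adjoin_singleton_eq_range_aeval] at h2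
  obtain ⟨P, hP⟩ := h2
  have hP' : aeval (1 - ζ) P = z := hP
  -- the polynomial with root `1 - ζ`
  set G : F[X] := (cyclotomic q F).comp (C 1 - X) with hG
  have hlin : (C 1 - X : F[X]).natDegree = 1 := by
    have : (C 1 - X : F[X]) = -(X - C 1) := by ring
    rw [this, natDegree_neg, natDegree_X_sub_C]
  have hGdeg : G.natDegree = q - 1 := by
    rw [hG, natDegree_comp, hlin, mul_one, natDegree_cyclotomic, Nat.totient_prime hq]
  have hG0 : G ≠ 0 := by
    intro h
    rw [h, natDegree_zero] at hGdeg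
    have := hq.two_le
    omega
  have hGroot : aeval (1 - ζ) G = 0 := by
    rw [hG, aeval_comp]
    have : aeval (1 - ζ) (C 1 - X : F[X]) = ζ := by simp
    rw [this, aeval_def, eval₂_eq_eval_map, map_cyclotomic]
    have : NeZero ((q : ℕ) : Qb) := ⟨by exact_mod_cast hq.ne_zero⟩
    exact (isRoot_cyclotomic_iff.mpr hζ)
  set R := P % G with hR
  have hRz : aeval (1 - ζ) R = z := by
    have h3 := EuclideanDomain.div_add_mod P G
    conv_rhs => rw [← hP', ← h3, map_add, map_mul, hGroot, zero_mul, zero_add]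
  have hRdeg : R.natDegree < q - 1 := by
    by_cases h : R = 0
    · rw [h, natDegree_zero]
      have := hq.two_le
      omega
    · rw [← hGdeg]
      exact natDegree_lt_natDegree h (EuclideanDomain.mod_lt P hG0)
  refine ⟨fun i => ((R.coeff i : F) : Qb), fun i => (R.coeff i).2, ?_⟩
  rw [← hRz, aeval_eq_sum_range' hRdeg]
  refine Finset.sum_congr rfl fun j _ => ?_
  rw [Algebra.smul_def]
  rfl

/-- invariance of the valuations -/
theorem val_conj (V : ValuationSubring Qb) (F : IntermediateField ℚ Qb) {q : ℕ}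
    (hF : UnramAt F q) (hq : q.Prime) (hV : V.valuation (q : Qb) < 1) {ζ : Qb}
    (hζ : IsPrimitiveRoot ζ q) (z : Qb) (hz : z ∈ F ⊔ IntermediateField.adjoin ℚ {ζ})
    (σ : Qb ≃ₐ[F] Qb) : V.valuation (σ z) = V.valuation z := by
  obtain ⟨a, ha, rfl⟩ := exists_expansion F hq hζ z hz
  have hσζ : IsPrimitiveRoot (σ ζ) q := hζ.map_of_injective σ.injective
  have h1 : σ (∑ j ∈ Finset.range (q - 1), a j * (1 - ζ) ^ j) =
      ∑ j ∈ Finset.range (q - 1), a j * (1 - σ ζ) ^ j := by
    rw [map_sum]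
    refine Finset.sum_congr rfl fun j _ => ?_
    have h2 : σ (a j) = a j := σ.commutes ⟨a j, ha j⟩
    rw [map_mul, map_pow, map_sub, map_one, h2]
  rw [h1, val_sum V F hF hq hV (val_pow V hq hσζ) a ha, val_sum V F hF hq hV (val_pow V hq hζ) a ha,
    val_one_sub_eq V hq.pos hζ hσζ]

/-- conjugates are close -/
theorem val_sub_lt (V : ValuationSubring Qb) (F : IntermediateField ℚ Qb) {q : ℕ}
    (hF : UnramAt F q) (hq : q.Prime) (hV : V.valuation (q : Qb) < 1) {ζ : Qb}
    (hζ : IsPrimitiveRoot ζ q) (z : Qb) (hz : z ∈ F ⊔ IntermediateField.adjoin ℚ {ζ})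
    (σ : Qb ≃ₐ[F] Qb) (h : V.valuation z ≤ 1) : V.valuation (z - σ z) < 1 := by
  obtain ⟨a, ha, rfl⟩ := exists_expansion F hq hζ z hz
  have hσζ : IsPrimitiveRoot (σ ζ) q := hζ.map_of_injective σ.injective
  have h1 : σ (∑ j ∈ Finset.range (q - 1), a j * (1 - ζ) ^ j) =
      ∑ j ∈ Finset.range (q - 1), a j * (1 - σ ζ) ^ j := by
    rw [map_sum]
    refine Finset.sum_congr rfl fun j _ => ?_
    have h2 : σ (a j) = a j := σ.commutes ⟨a j, ha j⟩
    rw [map_mul, map_pow, map_sub, map_one, h2]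
  rw [h1, ← Finset.sum_sub_distrib]
  apply Valuation.map_sum_lt _ one_ne_zero
  intro j hj
  rcases Nat.eq_zero_or_pos j with rfl | hj1
  · simp
  · have h2 := term_lt V F hF hq hV (val_pow V hq hζ) a ha h j (Finset.mem_range.mp hj) hj1
    apply Valuation.map_sub_lt
    · rw [map_mul, map_pow]
      exact h2
    · rw [map_mul, map_pow, val_one_sub_eq V hq.pos hζ hσζ]
      exact h2

end Pool.Agent.Y726
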