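import Mathlib
import Pool.Agent.Y726.Zeta
import Pool.Agent.W70.LD.Mahler

set_option autoImplicit false

/-!
# Heights in an extension which is ramified at a large prime
-/

namespace Pool.Agent.Y726

open Polynomial IntermediateField Module
open Pool.Agent.H58P (Qb ht qb_isIntegral alg_isIntegral)

/-- the degree over `F` of an element of `F ⊔ L` -/
lemma natDegree_minpoly_le (F L : IntermediateField ℚ Qb) [FiniteDimensional ℚ F]
    [FiniteDimensional ℚ L] (w : Qb) (hw : w ∈ F ⊔ L) :
    (minpoly F w).natDegree ≤ finrank ℚ L := by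
  have hint : IsIntegral F w := alg_isIntegral F w
  have hfd : FiniteDimensional F (IntermediateField.adjoin F {w}) :=
    IntermediateField.adjoin.finiteDimensional hint
  have h1 : finrank F (IntermediateField.adjoin F {w}) = (minpoly F w).natDegree :=
    IntermediateField.adjoin.finrank hint
  have h2 : finrank ℚ F * finrank F (IntermediateField.adjoin F {w}) =
      finrank ℚ (IntermediateField.adjoin F {w}) := finrank_mul_finrank ℚ F _
  have hle : ∀ x ∈ IntermediateField.adjoin F {w}, x ∈ F ⊔ L := by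
    intro x hx
    have h5 : x ∈ F ⊔ IntermediateField.adjoin ℚ {w} := by
      rw [← restrictScalars_adjoin_eq_sup, mem_restrictScalars]
      exact hx
    exact (sup_le le_sup_left (adjoin_simple_le_iff.mpr hw) : F ⊔ IntermediateField.adjoin ℚ {w} ≤
      F ⊔ L) h5
  let f : IntermediateField.adjoin F {w} →ₗ[ℚ] (F ⊔ L : IntermediateField ℚ Qb) :=
    { toFun := fun x => ⟨x, hle x x.2⟩
      map_add' := fun x y => rfl
      map_smul' := fun c x => by
        apply Subtype.ext
        simp [Algebra.smul_def] }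
  have h3 : finrank ℚ (IntermediateField.adjoin F {w}) ≤
      finrank ℚ (F ⊔ L : IntermediateField ℚ Qb) := by
    apply LinearMap.finrank_le_finrank_of_injective (f := f)
    intro x y hxy
    apply Subtype.ext
    have h6 : ((f x : (F ⊔ L : IntermediateField ℚ Qb)) : Qb) = (f y : Qb) := by rw [hxy]
    exact h6
  have h4 : finrank ℚ (F ⊔ L : IntermediateField ℚ Qb) ≤ finrank ℚ F * finrank ℚ L :=
    IntermediateField.finrank_sup_le _ _
  have h5 : 0 < finrank ℚ F := finrank_pos
  rw [← h2, h1] at h3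
  exact Nat.le_of_mul_le_mul_left (h3.trans h4) h5

/-- a small element has a small value -/
theorem val_pow_le (V : ValuationSubring Qb) (F : IntermediateField ℚ Qb) {q : ℕ}
    (hF : UnramAt F q) (hq : q.Prime) (hV : V.valuation (q : Qb) < 1) {ζ : Qb}
    (hζ : IsPrimitiveRoot ζ q) (w : Qb) (hw : w ∈ F ⊔ IntermediateField.adjoin ℚ {ζ}) (n : ℕ)
    (hn : (minpoly F w).natDegree ≤ n) (h : V.valuation w < 1) :
    V.valuation w ^ n ≤ V.valuation (q : Qb) := by
  have hint : IsIntegral F w := alg_isIntegral F w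
  have hdeg : 0 < (minpoly F w).natDegree := minpoly.natDegree_pos hint
  by_cases hw0 : w = 0
  · rw [hw0, map_zero, zero_pow (by omega)]
    exact zero_le
  have hmon : (minpoly F w).Monic := minpoly.monic hint
  set g : Qb[X] := (minpoly F w).map (algebraMap F Qb) with hg
  have hsplit : g.Splits := IsAlgClosed.splits _
  have hgm : g.Monic := hmon.map _
  have hcard : Multiset.card g.roots = (minpoly F w).natDegree := by
    rw [← hsplit.natDegree_eq_card_roots, hg, hmon.natDegree_map]
  have h1 := hsplit.coeff_zero_eq_prod_roots_of_monic hgm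
  have hroot : ∀ r ∈ g.roots, V.valuation r = V.valuation w := by
    intro r hr
    have h2 : aeval r (minpoly F w) = 0 := by
      rw [mem_roots', IsRoot.def, hg, eval_map_algebraMap] at hr
      exact hr.2
    have h3 : minpoly F r = minpoly F w :=
      (minpoly.eq_of_irreducible_of_monic (minpoly.irreducible hint) h2 hmon).symm
    have halg : Algebra.IsAlgebraic F Qb := ⟨fun z => (alg_isIntegral F z).isAlgebraic⟩
    have hcl : IsAlgClosure F Qb := ⟨inferInstance, halg⟩
    have hnorm : Normal F Qb := IsAlgClosure.normal F Qb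
    obtain ⟨σ, hσ⟩ := (Normal.minpoly_eq_iff_mem_orbit Qb).mp h3
    have h4 : σ w = r := hσ
    rw [← h4]
    exact val_conj V F hF hq hV hζ w hw σ
  have h5 : V.valuation g.roots.prod = V.valuation w ^ (minpoly F w).natDegree := by
    rw [map_multiset_prod, Multiset.map_congr rfl hroot, Multiset.map_const', Multiset.prod_replicate,
      hcard]
  have h6 : g.coeff 0 = (((minpoly F w).coeff 0 : F) : Qb) := by
    rw [hg, coeff_map]
    rfl
  have h7 : V.valuation (((minpoly F w).coeff 0 : F) : Qb) =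
      V.valuation w ^ (minpoly F w).natDegree := by
    rw [← h6, h1, map_mul, h5, map_pow, Valuation.map_neg, map_one, one_pow, one_mul]
  have hVw : V.valuation w ≠ 0 := (Valuation.ne_zero_iff _).mpr hw0
  have h8 : (((minpoly F w).coeff 0 : F) : Qb) ≠ 0 := by
    intro h9
    rw [h9, map_zero] at h7
    exact pow_ne_zero _ hVw h7.symm
  obtain ⟨m, hm⟩ := hF V hV _ ((minpoly F w).coeff 0).2 h8
  have hq0 : V.valuation (q : Qb) ≠ 0 := by
    rw [Valuation.ne_zero_iff]
    exact_mod_cast hq.ne_zero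
  have hlt : V.valuation w ^ (minpoly F w).natDegree < 1 := pow_lt_one' h hdeg.ne'
  have h9 : V.valuation w ^ n ≤ V.valuation w ^ (minpoly F w).natDegree :=
    pow_le_pow_right_of_le_one' h.le hn
  refine h9.trans ?_
  rw [← h7, hm] at hlt ⊢
  have hm1 : 1 ≤ m := by
    by_contra hcon
    have h10 : m ≤ 0 := by omega
    have h11 : (1 : V.ValueGroup) ≤ V.valuation (q : Qb) ^ m := by
      rw [← zpow_zero (V.valuation (q : Qb))]
      exact (zpow_le_zpow_iff_right_of_lt_one₀ (zero_lt_iff.mpr hq0) hV).mpr h10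
    exact absurd hlt (not_lt.mpr h11)
  calc V.valuation (q : Qb) ^ m ≤ V.valuation (q : Qb) ^ (1 : ℤ) :=
        (zpow_le_zpow_iff_right_of_lt_one₀ (zero_lt_iff.mpr hq0) hV).mpr hm1
    _ = _ := zpow_one _

lemma norm_sub_le_max (a b : ℂ) : ‖a - b‖ ≤ 2 * (max ‖a‖ 1 * max ‖b‖ 1) := by
  have h1 : ‖a‖ ≤ max ‖a‖ 1 := le_max_left _ _
  have h2 : ‖b‖ ≤ max ‖b‖ 1 := le_max_left _ _
  have h3 : (1 : ℝ) ≤ max ‖a‖ 1 := le_max_right _ _
  have h4 : (1 : ℝ) ≤ max ‖b‖ 1 := le_max_right _ _
  have h5 := norm_sub_le a b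
  nlinarith

/-- **lower bound for the height.** -/
theorem height_bound (F L : IntermediateField ℚ Qb) [FiniteDimensional ℚ F]
    [FiniteDimensional ℚ L] {q : ℕ} (hF : UnramAt F q) (hq : q.Prime) {ζ : Qb}
    (hζ : IsPrimitiveRoot ζ q) (hL : L ≤ IntermediateField.adjoin ℚ {ζ})
    (y : Qb) (hy : y ∈ F ⊔ L) (σ : Qb ≃ₐ[F] Qb) (hσ : σ y ≠ y) (hσy : σ y ∈ F ⊔ L) :
    Real.log q ≤ (finrank ℚ L : ℝ) * (Real.log 2 + 2 * ht y) := by
  set n := finrank ℚ L with hn
  have hn0 : 0 < n := finrank_pos
  have hq0 : (q : Qb) ≠ 0 := by exact_mod_cast hq.ne_zero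
  have hqR : (0 : ℝ) < q := by exact_mod_cast hq.pos
  have hsup : F ⊔ L ≤ F ⊔ IntermediateField.adjoin ℚ {ζ} := sup_le_sup_left hL F
  have hw0 : y - σ y ≠ 0 := sub_ne_zero.mpr hσ.symm
  -- the local estimate
  have key : ∀ V : ValuationSubring Qb, V.valuation ((y - σ y) ^ n / (q : Qb)) ≤
      ∏ j : Fin n ⊕ Fin n, max 1 (V.valuation (Sum.elim (fun _ => y) (fun _ => σ y) j)) := by
    intro V
    rw [Fintype.prod_sum_type]
    simp only [Sum.elim_inl, Sum.elim_inr, Finset.prod_const, Finset.card_univ, Fintype.card_fin]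
    have hVq0 : 0 < V.valuation (q : Qb) := zero_lt_iff.mpr ((Valuation.ne_zero_iff _).mpr hq0)
    rw [map_div₀, map_pow, div_le_iff₀ hVq0]
    have hVq : V.valuation (q : Qb) ≤ 1 := by
      have := integral_le V ((q : ℤ) : Qb) (intCast_integral q)
      simpa using this
    rcases hVq.lt_or_eq with hlt | heq
    · have hconj := val_conj V F hF hq hlt hζ y (hsup hy) σ
      rcases le_or_gt (V.valuation y) 1 with hle | hgt
      · rw [hconj, max_eq_left hle, one_pow, one_mul, one_mul]
        apply val_pow_le V F hF hq hlt hζ (y - σ y) (sub_mem (hsup hy) (hsup hσy)) n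
        · exact natDegree_minpoly_le F L _ (sub_mem hy hσy)
        · exact val_sub_lt V F hF hq hlt hζ y (hsup hy) σ hle
      · have hy0 : y ≠ 0 := by
          rintro rfl
          rw [map_zero] at hgt
          exact absurd hgt (by simp)
        have hVy : V.valuation y ≠ 0 := (Valuation.ne_zero_iff _).mpr hy0
        have hσy0 : σ y ≠ 0 := fun h => hy0 ((map_eq_zero σ).mp h)
        have hinv : V.valuation y⁻¹ ≤ 1 := by
          rw [map_inv₀]
          exact inv_le_one_of_one_le₀ hgt.le
        have hyi : y⁻¹ ∈ F ⊔ L := inv_mem hy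
        have hσyi : σ y⁻¹ ∈ F ⊔ L := by rw [map_inv₀]; exact inv_mem hσy
        have h1 := val_pow_le V F hF hq hlt hζ (y⁻¹ - σ y⁻¹) (sub_mem (hsup hyi) (hsup hσyi)) n
          (natDegree_minpoly_le F L _ (sub_mem hyi hσyi))
          (val_sub_lt V F hF hq hlt hζ y⁻¹ (hsup hyi) σ hinv)
        have h2 : y - σ y = -((y⁻¹ - σ y⁻¹) * (y * σ y)) := by
          rw [map_inv₀]
          field_simp
          ring
        rw [h2, Valuation.map_neg, map_mul, mul_pow, map_mul, mul_pow, hconj, max_eq_right hgt.le,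
          mul_comm]
        gcongr
    · rw [heq, mul_one, ← mul_pow]
      apply pow_le_pow_left'
      refine (Valuation.map_sub _ _ _).trans ?_
      apply max_le
      · calc V.valuation y ≤ max 1 (V.valuation y) * 1 := by rw [mul_one]; exact le_max_right _ _
          _ ≤ _ := by gcongr; exact le_max_left _ _
      · calc V.valuation (σ y) ≤ 1 * max 1 (V.valuation (σ y)) := by
              rw [one_mul]; exact le_max_right _ _
          _ ≤ _ := by gcongr; exact le_max_left _ _
  have key2 : ∀ φ : Qb →+* ℂ, (q : ℝ) / 2 ^ n * ‖φ ((y - σ y) ^ n / (q : Qb))‖ ≤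
      ∏ j : Fin n ⊕ Fin n, max ‖φ (Sum.elim (fun _ => y) (fun _ => σ y) j)‖ 1 := by
    intro φ
    rw [Fintype.prod_sum_type]
    simp only [Sum.elim_inl, Sum.elim_inr, Finset.prod_const, Finset.card_univ, Fintype.card_fin]
    rw [map_div₀, map_pow, map_sub, map_natCast, norm_div, norm_pow, Complex.norm_natCast]
    have h1 : ‖φ y - φ (σ y)‖ ^ n ≤ (2 * (max ‖φ y‖ 1 * max ‖φ (σ y)‖ 1)) ^ n :=
      pow_le_pow_left₀ (norm_nonneg _) (norm_sub_le_max _ _) n
    rw [mul_pow, mul_pow] at h1
    have h2 : (0 : ℝ) < 2 ^ n := by positivity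
    rw [div_mul_div_comm, mul_comm (q : ℝ), mul_div_mul_right _ _ hqR.ne', div_le_iff₀ h2]
    linarith
  have hD0 : (y - σ y) ^ n / (q : Qb) ≠ 0 := div_ne_zero (pow_ne_zero _ hw0) hq0
  have h1 := Pool.Agent.W70.LD.height_prod_ge ((y - σ y) ^ n / (q : Qb)) hD0
    (Sum.elim (fun _ : Fin n => y) (fun _ : Fin n => σ y)) ((q : ℝ) / 2 ^ n) (by positivity) key key2
  have h2 : ht (σ y) = ht y := by
    have := Pool.Agent.H58B.ht_conj (σ.restrictScalars ℚ) y
    exact this
  rw [Fintype.sum_sum_type] at h1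
  simp only [Sum.elim_inl, Sum.elim_inr, Finset.sum_const, Finset.card_univ, Fintype.card_fin, h2,
    nsmul_eq_mul] at h1
  rw [Real.log_div hqR.ne' (by positivity), Real.log_pow] at h1
  linarith

end Pool.Agent.Y726
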