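import Mathlib
import Pool.Agent.H58P.Loc

set_option autoImplicit false

/-!
# Degrees over a field in which `q` is not a square
-/

namespace Pool.Agent.Y726

open Polynomial IntermediateField Module
open Pool.Agent.H58P (Qb qb_isIntegral)

theorem local_degree (q : ℕ) (hq : q.Prime) (n : ℕ) (r θ : Qb) (hr : r ^ 2 = q)
    (hθ : ∀ τ : Qb ≃ₐ[ℚ] Qb, τ r = -r → ∀ j : ℕ, 0 < j → j < n → (τ ^ j) θ ≠ θ)
    (k Ω : Type) [Field k] [Field Ω] [Algebra k Ω] [IsAlgClosure k Ω] [CharZero k]
    (ι : Qb →+* Ω) (hk : ¬ IsSquare (q : k)) : n ≤ (minpoly k (ι θ)).natDegree := by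
  classical
  have hΩ : CharZero Ω := charZero_of_injective_algebraMap (algebraMap k Ω).injective
  have halg : Algebra.IsAlgebraic k Ω := IsAlgClosure.isAlgebraic
  have hnorm : Normal k Ω := IsAlgClosure.normal k Ω
  have hac : IsAlgClosed Ω := IsAlgClosure.isAlgClosed k
  -- the minimal polynomial of the square root
  have hmon : (X ^ 2 - C (q : k)).Monic := monic_X_pow_sub_C _ two_ne_zero
  have hirr : Irreducible (X ^ 2 - C (q : k)) := by
    apply X_pow_sub_C_irreducible_of_prime Nat.prime_two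
    intro b hb
    exact hk ⟨b, by rw [← hb, sq]⟩
  have hιr : (ι r) ^ 2 = (q : Ω) := by rw [← map_pow, hr, map_natCast]
  have hmin : ∀ z : Ω, z ^ 2 = q → minpoly k z = X ^ 2 - C (q : k) := by
    intro z hz
    refine (minpoly.eq_of_irreducible_of_monic hirr ?_ hmon).symm
    simp [hz]
  obtain ⟨s, hs⟩ := (Normal.minpoly_eq_iff_mem_orbit (F := k) Ω (x := -ι r) (y := ι r)).mp (by
    rw [hmin _ hιr, hmin _ (by rw [neg_sq, hιr])])
  have hs' : s (ι r) = -ι r := hs
  -- the induced automorphism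
  let _ : Algebra Qb Ω := ι.toAlgebra
  have hnormQ : Normal ℚ Qb :=
    { isAlgebraic := fun x => (qb_isIntegral x).isAlgebraic
      splits' := fun x => IsAlgClosed.splits _ }
  have hst : IsScalarTower ℚ Qb Ω := IsScalarTower.of_algebraMap_eq fun x => by simp
  let s' : Ω ≃ₐ[ℚ] Ω := AlgEquiv.ofRingEquiv (f := (s : Ω ≃+* Ω)) fun x => by simp
  let τ : Qb ≃ₐ[ℚ] Qb := s'.restrictNormal Qb
  have hτ : ∀ x : Qb, ι (τ x) = s (ι x) := fun x => s'.restrictNormal_commutes Qb x
  have hτr : τ r = -r := by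
    apply ι.injective
    rw [hτ, hs', map_neg]
  have hpow : ∀ (j : ℕ) (x : Qb), ι ((τ ^ j) x) = (s ^ j) (ι x) := by
    intro j
    induction j with
    | zero => intro x; simp
    | succ j ih =>
      intro x
      rw [pow_succ, pow_succ]
      show ι ((τ ^ j) (τ x)) = (s ^ j) (s (ι x))
      rw [ih, hτ]
  -- the conjugates
  have hint : IsIntegral k (ι θ) := (halg.isAlgebraic _).isIntegral
  set S : Finset Ω := (Finset.range n).image fun j => (s ^ j) (ι θ) with hS
  have hcard : S.card = n := by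
    rw [hS, Finset.card_image_of_injOn, Finset.card_range]
    have key : ∀ a b : ℕ, a < b → b < n → (s ^ a) (ι θ) ≠ (s ^ b) (ι θ) := by
      intro a b hab hb h
      have h1 : s ^ b = s ^ a * s ^ (b - a) := by rw [← pow_add]; congr 1; omega
      rw [h1] at h
      have h2 : (s ^ a) (ι θ) = (s ^ a) ((s ^ (b - a)) (ι θ)) := h
      have h3 := (s ^ a).injective h2
      rw [← hpow] at h3
      exact hθ τ hτr (b - a) (by omega) (by omega) (ι.injective h3).symm
    intro a ha b hb hab
    have ha' : a < n := by simpa using ha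
    have hb' : b < n := by simpa using hb
    by_contra hne
    rcases Nat.lt_or_gt_of_ne hne with h | h
    · exact key a b h hb' hab
    · exact key b a h ha' hab.symm
  have hsub : S ⊆ ((minpoly k (ι θ)).map (algebraMap k Ω)).roots.toFinset := by
    intro z hz
    rw [hS, Finset.mem_image] at hz
    obtain ⟨j, -, rfl⟩ := hz
    rw [Multiset.mem_toFinset, mem_roots ((minpoly.monic hint).map _).ne_zero, IsRoot.def,
      eval_map_algebraMap]
    have h1 : aeval ((s ^ j : Ω ≃ₐ[k] Ω) (ι θ)) (minpoly k (ι θ)) =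
        (s ^ j : Ω ≃ₐ[k] Ω) (aeval (ι θ) (minpoly k (ι θ))) :=
      (aeval_algHom_apply ((s ^ j : Ω ≃ₐ[k] Ω) : Ω →ₐ[k] Ω) (ι θ) _)
    rw [h1, minpoly.aeval, map_zero]
  calc n = S.card := hcard.symm
    _ ≤ _ := Finset.card_le_card hsub
    _ ≤ _ := Multiset.toFinset_card_le _
    _ ≤ _ := card_roots' _
    _ = _ := (minpoly.monic hint).natDegree_map _

end Pool.Agent.Y726
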