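import Mathlib

set_option autoImplicit false

/-!
# Primes with prescribed residue symbols
-/

namespace Pool.Agent.Y726

/-- there are large primes `q = 1` modulo `2 ^ i` which are not squares modulo `p` -/
lemma exists_q (p : ℕ) (hp : p.Prime) (hp2 : p ≠ 2) (i B : ℕ) :
    ∃ q : ℕ, q.Prime ∧ B < q ∧ 2 ^ i ∣ q - 1 ∧ ¬ IsSquare (q : ZMod p) := by
  have : Fact p.Prime := ⟨hp⟩
  obtain ⟨b, hb⟩ := FiniteField.exists_nonsquare (F := ZMod p) (by rwa [ZMod.ringChar_zmod_n])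
  have hco : Nat.Coprime (2 ^ i) p := by
    apply Nat.Coprime.pow_left
    exact (Nat.coprime_primes Nat.prime_two hp).mpr (Ne.symm hp2)
  obtain ⟨a, ha1, ha2⟩ := Nat.chineseRemainder hco 1 b.val
  have hN : NeZero (2 ^ i * p) := ⟨mul_ne_zero (by positivity) hp.ne_zero⟩
  have hunit : IsUnit ((a : ℕ) : ZMod (2 ^ i * p)) := by
    rw [ZMod.isUnit_iff_coprime, Nat.coprime_mul_iff_right]
    constructor
    · have h1 : Nat.gcd a (2 ^ i) = Nat.gcd 1 (2 ^ i) := Nat.ModEq.gcd_eq ha1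
      rw [Nat.Coprime, h1]
      simp
    · have h1 : Nat.gcd a p = Nat.gcd b.val p := Nat.ModEq.gcd_eq ha2
      rw [Nat.Coprime, h1]
      have h2 : ¬ p ∣ b.val := by
        intro h
        apply hb
        have h3 : ((b.val : ℕ) : ZMod p) = 0 := (ZMod.natCast_eq_zero_iff _ _).mpr h
        rw [ZMod.natCast_zmod_val] at h3
        rw [h3]
        exact ⟨0, by simp⟩
      exact ((Nat.Prime.coprime_iff_not_dvd hp).mpr h2).symm
  obtain ⟨q, hqB, hq, hqa⟩ := Nat.forall_exists_prime_gt_and_eq_mod hunit B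
  have hmod : q ≡ a [MOD (2 ^ i * p)] := (ZMod.natCast_eq_natCast_iff _ _ _).mp hqa
  refine ⟨q, hq, hqB, ?_, ?_⟩
  · have h1 : q ≡ 1 [MOD 2 ^ i] := (hmod.of_mul_right p).trans ha1
    exact (Nat.modEq_iff_dvd' hq.one_lt.le).mp h1.symm
  · have h1 : q ≡ b.val [MOD p] := (hmod.of_mul_left (2 ^ i)).trans ha2
    have h2 : (q : ZMod p) = b := by
      rw [(ZMod.natCast_eq_natCast_iff _ _ _).mpr h1, ZMod.natCast_zmod_val]
    rwa [h2]

end Pool.Agent.Y726
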