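import Mathlib
import Pool.Agent.H58P.Loc

set_option autoImplicit false

/-!
# Cyclic fields of degree a power of two and prime conductor
-/

namespace Pool.Agent.Y726

open Polynomial IntermediateField Module
open Pool.Agent.H58P (Qb qb_isIntegral)

/-- the Gauss sum -/
lemma exists_sqrt {C : Type*} [Field C] [CharZero C] (q : ℕ) (hq : q.Prime) (hq4 : q % 4 = 1)
    {ζ : C} (hζ : IsPrimitiveRoot ζ q) : ∃ r : C, r ^ 2 = q := by
  have : Fact q.Prime := ⟨hq⟩
  have hq2 : q ≠ 2 := by rintro rfl; omega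
  have hchar : ringChar (ZMod q) ≠ 2 := by rwa [ZMod.ringChar_zmod_n]
  set χ : MulChar (ZMod q) C := (quadraticChar (ZMod q)).ringHomComp (Int.castRingHom C) with hχ
  have hinj : Function.Injective (Int.castRingHom C) := Int.cast_injective
  have h1 : χ ≠ 1 := by
    rw [hχ]
    intro h
    exact quadraticChar_ne_one hchar ((MulChar.ringHomComp_eq_one_iff hinj).mp h)
  have h2 : χ.IsQuadratic := (quadraticChar_isQuadratic (ZMod q)).comp _
  have h3 := gaussSum_sq h1 h2 (AddChar.zmodChar_primitive_of_primitive_root q hζ)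
  refine ⟨_, h3.trans ?_⟩
  have h4 : χ (-1) = 1 := by
    rw [hχ, MulChar.ringHomComp_apply, quadraticChar_neg_one hchar, ZMod.card,
      ZMod.χ₄_nat_one_mod_four hq4]
    simp
  rw [h4, one_mul, ZMod.card]

/-- the fixed field of a subgroup is generated by one element, and determines the subgroup -/
lemma exists_prim (F E : Type*) [Field F] [Field E] [Algebra F E] [FiniteDimensional F E]
    [IsGalois F E] (H : Subgroup (E ≃ₐ[F] E)) :
    ∃ θ ∈ IntermediateField.fixedField H, ∀ f : E ≃ₐ[F] E, f θ = θ → f ∈ H := by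
  obtain ⟨θ, hθ⟩ := Field.exists_primitive_element F (IntermediateField.fixedField H)
  refine ⟨θ, θ.2, fun f hf => ?_⟩
  rw [← IntermediateField.fixingSubgroup_fixedField H, IntermediateField.mem_fixingSubgroup_iff]
  intro x hx
  have h1 : (⟨x, hx⟩ : IntermediateField.fixedField H) ∈
      (IntermediateField.adjoin F {θ} : IntermediateField F (IntermediateField.fixedField H)) := by
    rw [hθ]; exact mem_top
  have h2 : IntermediateField.adjoin F {θ} ≤
      (IntermediateField.fixedField (Subgroup.zpowers f)).comap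
        (IntermediateField.fixedField H).val := by
    rw [adjoin_simple_le_iff]
    show (θ : E) ∈ IntermediateField.fixedField (Subgroup.zpowers f)
    rw [IntermediateField.mem_fixedField_iff]
    intro g hg
    have h3 : f ∈ MulAction.stabilizer (E ≃ₐ[F] E) (θ : E) := hf
    exact (Subgroup.zpowers_le.mpr h3) hg
  have h3 : x ∈ IntermediateField.fixedField (Subgroup.zpowers f) := h2 h1
  rw [IntermediateField.mem_fixedField_iff] at h3
  exact h3 _ (Subgroup.mem_zpowers _)

theorem exists_sub (q : ℕ) (hq : q.Prime) (i : ℕ) (hi : 2 ≤ i) (hqi : 2 ^ i ∣ q - 1) {ζ : Qb}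
    (hζ : IsPrimitiveRoot ζ q) :
    ∃ L : IntermediateField ℚ Qb, L ≤ IntermediateField.adjoin ℚ {ζ} ∧ FiniteDimensional ℚ L ∧
      finrank ℚ L = 2 ^ i ∧ (∀ σ : Qb ≃ₐ[ℚ] Qb, ∀ x ∈ L, σ x ∈ L) ∧
      ∃ r θ : Qb, r ^ 2 = q ∧ θ ∈ L ∧ ∀ τ : Qb ≃ₐ[ℚ] Qb, τ r = -r →
        ∀ j : ℕ, 0 < j → j < 2 ^ i → (τ ^ j) θ ≠ θ := by
  have : Fact q.Prime := ⟨hq⟩
  have : NeZero q := ⟨hq.ne_zero⟩
  have hq4 : q % 4 = 1 := by
    obtain ⟨c, hc⟩ := hqi
    obtain ⟨k, rfl⟩ := Nat.exists_eq_add_of_le hi
    have h1 : q = 4 * (2 ^ k * c) + 1 := by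
      have := hq.one_lt
      have h2 : 2 ^ (2 + k) * c = 4 * (2 ^ k * c) := by ring
      omega
    omega
  set C : IntermediateField ℚ Qb := IntermediateField.adjoin ℚ {ζ} with hC
  have hint : Algebra.IsIntegral ℚ Qb := ⟨fun x => qb_isIntegral x⟩
  have hcyc : IsCyclotomicExtension {q} ℚ C :=
    hζ.intermediateField_adjoin_isCyclotomicExtension ℚ
  have hfd : FiniteDimensional ℚ C := IsCyclotomicExtension.finiteDimensional {q} ℚ C
  have hNF : NumberField C :=
    { to_charZero := inferInstance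
      to_finiteDimensional := hfd }
  have hgal : IsGalois ℚ C := IsCyclotomicExtension.isGalois {q} ℚ C
  let e : (C ≃ₐ[ℚ] C) ≃* (ZMod q)ˣ := IsCyclotomicExtension.Rat.galEquivZMod q C
  have hcyclic : IsCyclic (C ≃ₐ[ℚ] C) := isCyclic_of_surjective e.symm e.symm.surjective
  obtain ⟨g, hg⟩ := IsCyclic.exists_generator (α := C ≃ₐ[ℚ] C)
  have hcard : Nat.card (C ≃ₐ[ℚ] C) = q - 1 := by
    rw [Nat.card_congr e.toEquiv, Nat.card_eq_fintype_card, ZMod.card_units]
  have hord : orderOf g = q - 1 := by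
    rw [← hcard]
    exact orderOf_eq_card_of_forall_mem_zpowers hg
  have hq1 : 0 < q - 1 := by have := hq.two_le; omega
  set n := 2 ^ i with hn
  have hn0 : 0 < n := by positivity
  set H : Subgroup (C ≃ₐ[ℚ] C) := Subgroup.zpowers (g ^ n) with hH
  set L0 : IntermediateField ℚ C := IntermediateField.fixedField H with hL0
  have hcardH : Nat.card H * n = q - 1 := by
    rw [hH, Nat.card_zpowers, orderOf_pow_of_dvd hn0.ne' (by rw [hord]; exact hqi), hord]
    exact Nat.div_mul_cancel hqi
  have hrank : finrank ℚ L0 = n := by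
    have h1 : finrank L0 C = Nat.card H := IntermediateField.finrank_fixedField_eq_card H
    have h2 : finrank ℚ L0 * finrank L0 C = finrank ℚ C := finrank_mul_finrank ℚ L0 C
    have h3 : finrank ℚ C = q - 1 := by
      rw [← IsGalois.card_aut_eq_finrank, hcard]
    rw [h1, h3, ← hcardH, mul_comm] at h2
    have h4 : 0 < Nat.card H := Nat.card_pos
    exact Nat.eq_of_mul_eq_mul_left h4 h2
  -- restriction of automorphisms
  have hnormC : Normal ℚ C := inferInstance
  have hres : ∀ σ : Qb ≃ₐ[ℚ] Qb, ∀ x : C, ((σ.restrictNormal C x : C) : Qb) = σ (x : Qb) :=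
    fun σ x => σ.restrictNormal_commutes C x
  obtain ⟨r, hr⟩ := exists_sqrt (C := C) q hq hq4
    (ζ := ⟨ζ, mem_adjoin_simple_self ℚ ζ⟩) (by
      rw [← IsPrimitiveRoot.coe_submonoidClass_iff]
      exact hζ)
  obtain ⟨θ, hθL, hθ⟩ := exists_prim ℚ C H
  refine ⟨IntermediateField.lift L0, IntermediateField.lift_le L0, ?_, ?_, ?_, (r : Qb),
    (θ : Qb), ?_, ?_, ?_⟩
  · have : FiniteDimensional ℚ L0 := inferInstance
    exact LinearEquiv.finiteDimensional (IntermediateField.liftAlgEquiv L0).toLinearEquiv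
  · rw [← hrank]
    exact ((IntermediateField.liftAlgEquiv L0).toLinearEquiv.finrank_eq).symm
  · intro σ x hx
    obtain ⟨y, rfl⟩ : ∃ y : C, (y : Qb) = x := ⟨⟨x, IntermediateField.lift_le L0 hx⟩, rfl⟩
    have hy : y ∈ L0 := (IntermediateField.mem_lift y).mp hx
    rw [← hres σ y]
    refine (IntermediateField.mem_lift (σ.restrictNormal C y)).mpr ?_
    rw [hL0, IntermediateField.mem_fixedField_iff] at hy
    refine (IntermediateField.mem_fixedField_iff H (σ.restrictNormal C y)).mpr ?_
    intro f hf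
    obtain ⟨k, hk⟩ := hg (σ.restrictNormal C)
    obtain ⟨l, hl⟩ := hf
    have hcomm : f * σ.restrictNormal C = σ.restrictNormal C * f := by
      rw [← hk, ← hl]
      simp only
      rw [← zpow_natCast, ← zpow_mul, ← zpow_add, ← zpow_add, add_comm]
    have h1 : f (σ.restrictNormal C y) = (f * σ.restrictNormal C) y := rfl
    rw [h1, hcomm]
    show σ.restrictNormal C (f y) = _
    rw [hy f ⟨l, hl⟩]
  · have := congrArg (fun x : C => (x : Qb)) hr
    push_cast at this
    exact this
  · exact (IntermediateField.mem_lift θ).mpr hθL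
  · intro τ hτ j hj0 hjn hjθ
    obtain ⟨l, hl⟩ := hg (τ.restrictNormal C)
    simp only at hl
    -- `g r = r` or `g r = - r`
    have hgr : g r = r ∨ g r = -r := by
      have h1 : (g r) ^ 2 = r ^ 2 := by rw [← map_pow, hr, map_natCast]
      exact sq_eq_sq_iff_eq_or_eq_neg.mp h1
    have hr0 : r ≠ 0 := by
      intro h
      rw [h, zero_pow two_ne_zero] at hr
      have : (q : C) ≠ 0 := by exact_mod_cast hq.ne_zero
      exact this hr.symm
    have hg2 : (g ^ 2) r = r := by
      rw [pow_two]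
      show g (g r) = r
      rcases hgr with h | h
      · rw [h, h]
      · rw [h, map_neg, h, neg_neg]
    have hfix : ∀ m : ℤ, ((g ^ 2) ^ m) r = r := by
      intro m
      have h1 : g ^ 2 ∈ MulAction.stabilizer (C ≃ₐ[ℚ] C) r := hg2
      have h2 := Subgroup.zpow_mem _ h1 m
      exact h2
    have hodd : ¬ (2 : ℤ) ∣ l := by
      rintro ⟨m, rfl⟩
      have h1 : (g ^ (2 * m)) r = r := by
        rw [zpow_mul]
        have := hfix m
        rwa [← zpow_natCast] at this
      rw [hl] at h1
      have h2 : ((τ.restrictNormal C r : C) : Qb) = τ (r : Qb) := hres τ r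
      rw [h1, hτ] at h2
      have h3 : (r : Qb) = 0 := by
        have : (2 : Qb) * r = 0 := by linear_combination h2
        rcases mul_eq_zero.mp this with h | h
        · norm_num at h
        · exact h
      exact hr0 (by exact_mod_cast h3)
    -- the power fixes `L0`
    have hjC : ((τ.restrictNormal C) ^ j) θ = θ := by
      apply Subtype.ext
      have h1 : ∀ m : ℕ, ∀ x : C, ((((τ.restrictNormal C) ^ m) x : C) : Qb) = (τ ^ m) (x : Qb) := by
        intro m
        induction m with
        | zero => intro x; simp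
        | succ m ih =>
          intro x
          rw [pow_succ, pow_succ]
          show ((((τ.restrictNormal C) ^ m) (τ.restrictNormal C x) : C) : Qb) = (τ ^ m) (τ (x : Qb))
          rw [ih, hres]
      rw [h1]
      exact hjθ
    have hmemH : (τ.restrictNormal C) ^ j ∈ H := hθ _ hjC
    rw [hH, Subgroup.mem_zpowers_iff] at hmemH
    obtain ⟨k, hk⟩ := hmemH
    rw [← hl, ← zpow_natCast, ← zpow_mul, ← zpow_natCast, ← zpow_mul] at hk
    have h1 : g ^ (l * j - n * k : ℤ) = 1 := by
      rw [zpow_sub, ← hk]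
      group
    have h2 : ((q - 1 : ℕ) : ℤ) ∣ l * j - n * k := by
      rw [← hord]
      exact orderOf_dvd_iff_zpow_eq_one.mpr h1
    have h3 : (n : ℤ) ∣ l * j := by
      have h4 : (n : ℤ) ∣ ((q - 1 : ℕ) : ℤ) := by exact_mod_cast hqi
      have h5 := (h4.trans h2).add (Dvd.intro k rfl : (n : ℤ) ∣ n * k)
      simpa using h5
    have h4 : IsCoprime (n : ℤ) l := by
      rw [hn]
      push_cast
      apply IsCoprime.pow_left
      exact (Int.prime_two.coprime_iff_not_dvd).mpr hodd
    have h5 : (n : ℤ) ∣ j := h4.dvd_of_dvd_mul_left h3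
    have h6 : n ∣ j := by exact_mod_cast h5
    exact absurd (Nat.le_of_dvd hj0 h6) (not_le.mpr hjn)

end Pool.Agent.Y726
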