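import Mathlib
import Pool.Agent.Y726.Height
import Pool.Agent.Y726.Sub
import Pool.Agent.Y726.Prime
import Pool.Agent.Y726.Local
import Pool.Agent.H58W.HtNorth

set_option autoImplicit false

/-!
# The tower
-/

namespace Pool.Agent.Y726

open Polynomial IntermediateField Module
open Pool.Agent.H58P (Qb ht qb_isIntegral)

/-- `F` is stable under the automorphisms of `Qb` -/
def Stable (F : IntermediateField ℚ Qb) : Prop := ∀ σ : Qb ≃ₐ[ℚ] Qb, ∀ x ∈ F, σ x ∈ F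

lemma Stable.sup {F L : IntermediateField ℚ Qb} (hF : Stable F) (hL : Stable L) :
    Stable (F ⊔ L) := by
  intro σ x hx
  have h1 : (F ⊔ L).map (σ : Qb →ₐ[ℚ] Qb) ≤ F ⊔ L := by
    rw [IntermediateField.map_sup]
    apply sup_le_sup
    · rintro _ ⟨y, hy, rfl⟩
      exact hF σ y hy
    · rintro _ ⟨y, hy, rfl⟩
      exact hL σ y hy
  exact h1 ⟨x, hx, rfl⟩

/-- the degree over `k` of some element of `L` is at least `n`, if `k` is a field in which the
non-residues modulo `p` are not squares -/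
def LocBig (L : IntermediateField ℚ Qb) (p n : ℕ) : Prop :=
  ∀ (k Ω : Type) [Field k] [Field Ω] [Algebra k Ω] [IsAlgClosure k Ω] [CharZero k]
    (ι : Qb →+* Ω), (∀ q : ℕ, ¬ IsSquare (q : ZMod p) → ¬ IsSquare (q : k)) →
    ∃ x ∈ L, n ≤ (minpoly k (ι x)).natDegree

/-- the basic step -/
lemma exists_step (F : IntermediateField ℚ Qb) [FiniteDimensional ℚ F] (p : ℕ) (hp : p.Prime)
    (hp2 : p ≠ 2) (m : ℕ) :
    ∃ L : IntermediateField ℚ Qb, FiniteDimensional ℚ L ∧ Stable L ∧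
      (Stable F → ∀ y ∈ F ⊔ L, y ∉ F → (m : ℝ) ≤ ht y) ∧ LocBig L p m := by
  obtain ⟨B, hB⟩ := exists_unramAt F
  obtain ⟨q, hq, hqB, hqi, hns⟩ := exists_q p hp hp2 (m + 2)
    (max B ⌈Real.exp ((2 : ℝ) ^ (m + 2) * (Real.log 2 + 2 * m))⌉₊)
  have hF : UnramAt F q := hB q hq (lt_of_le_of_lt (le_max_left _ _) hqB)
  have hlog : (2 : ℝ) ^ (m + 2) * (Real.log 2 + 2 * m) < Real.log q := by
    have h1 : Real.exp ((2 : ℝ) ^ (m + 2) * (Real.log 2 + 2 * m)) < q := by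
      refine lt_of_le_of_lt (Nat.le_ceil _) ?_
      exact_mod_cast lt_of_le_of_lt (le_max_right _ _) hqB
    rwa [Real.lt_log_iff_exp_lt (by exact_mod_cast hq.pos)]
  have hnz : NeZero ((q : ℕ) : Qb) := ⟨by exact_mod_cast hq.ne_zero⟩
  obtain ⟨ζ, hζ⟩ : ∃ ζ : Qb, IsPrimitiveRoot ζ q :=
    HasEnoughRootsOfUnity.exists_primitiveRoot Qb q
  obtain ⟨L, hLC, hfd, hrank, hst, r, θ, hr, hθL, hθ⟩ :=
    exists_sub q hq (m + 2) (by omega) hqi hζ
  refine ⟨L, hfd, hst, ?_, ?_⟩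
  · intro hFst y hy hyF
    have halg : Algebra.IsAlgebraic F Qb :=
      ⟨fun z => ((qb_isIntegral z).tower_top (A := F)).isAlgebraic⟩
    have hcl : IsAlgClosure F Qb := ⟨inferInstance, halg⟩
    have hnorm : Normal F Qb := IsAlgClosure.normal F Qb
    have hgal : IsGalois F Qb := ⟨⟩
    obtain ⟨σ, hσ⟩ : ∃ σ : Qb ≃ₐ[F] Qb, σ y ≠ y := by
      by_contra hcon
      push Not at hcon
      have h1 := (InfiniteGalois.mem_range_algebraMap_iff_fixed (k := F) (K := Qb) y).mpr hcon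
      obtain ⟨z, hz⟩ := h1
      exact hyF (by rw [← hz]; exact z.2)
    have hσy : σ y ∈ F ⊔ L := (hFst.sup hst) (σ.restrictScalars ℚ) y hy
    have h1 := height_bound F L hF hq hζ hLC y hy σ hσ hσy
    rw [hrank] at h1
    push_cast at h1
    have h2 := hlog.trans_le h1
    have h3 : (0 : ℝ) < 2 ^ (m + 2) := by positivity
    have h4 := lt_of_mul_lt_mul_left h2 h3.le
    linarith
  · intro k Ω _ _ _ _ _ ι hk
    refine ⟨θ, hθL, le_trans ?_ (local_degree q hq (2 ^ (m + 2)) r θ hr hθ k Ω ι (hk q hns))⟩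
    exact (Nat.lt_two_pow_self (n := m)).le.trans (Nat.pow_le_pow_right (by norm_num) (by omega))

/-- a sequence of odd primes which takes each value infinitely often -/
noncomputable def oddPrime (m : ℕ) : ℕ :=
  if (Nat.unpair m).1.Prime ∧ (Nat.unpair m).1 ≠ 2 then (Nat.unpair m).1 else 3

lemma oddPrime_prime (m : ℕ) : (oddPrime m).Prime ∧ oddPrime m ≠ 2 := by
  unfold oddPrime
  split_ifs with h
  · exact h
  · exact ⟨Nat.prime_three, by norm_num⟩

lemma oddPrime_eq (p : ℕ) (hp : p.Prime) (hp2 : p ≠ 2) (N : ℕ) : ∃ m, N ≤ m ∧ oddPrime m = p := by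
  refine ⟨Nat.pair p N, Nat.right_le_pair p N, ?_⟩
  unfold oddPrime
  rw [Nat.unpair_pair]
  simp [hp, hp2]

/-- the tower -/
theorem exists_tower : ∃ F : ℕ → IntermediateField ℚ Qb,
    Monotone F ∧ (∀ m, FiniteDimensional ℚ (F m)) ∧ (∀ m, Stable (F m)) ∧
    (∀ m, ∀ y ∈ F (m + 1), y ∉ F m → (m : ℝ) ≤ ht y) ∧
    (∀ p : ℕ, p.Prime → p ≠ 2 → ∀ n : ℕ, ∃ m, LocBig (F m) p n) := by
  let St : Type := {K : IntermediateField ℚ Qb // FiniteDimensional ℚ K ∧ Stable K}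
  have hstep : ∀ (m : ℕ) (K : St), ∃ L : IntermediateField ℚ Qb, FiniteDimensional ℚ L ∧ Stable L ∧
      (∀ y ∈ K.1 ⊔ L, y ∉ K.1 → (m : ℝ) ≤ ht y) ∧ LocBig L (oddPrime m) m := by
    rintro m ⟨K, hK, hKs⟩
    obtain ⟨L, h1, h2, h3, h4⟩ := exists_step K (oddPrime m) (oddPrime_prime m).1
      (oddPrime_prime m).2 m
    exact ⟨L, h1, h2, h3 hKs, h4⟩
  choose d hd using hstep
  have hbot : Stable ⊥ := by
    intro σ x hx
    obtain ⟨c, rfl⟩ := IntermediateField.mem_bot.mp hx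
    rw [AlgEquiv.commutes]
    exact IntermediateField.algebraMap_mem _ _
  let f : ℕ → St := fun i => Nat.rec (⟨⊥, inferInstance, hbot⟩ : St)
    (fun i K => ⟨K.1 ⊔ d i K, by
      have := K.2.1
      have := (hd i K).1
      exact ⟨inferInstance, K.2.2.sup (hd i K).2.1⟩⟩) i
  have hmono : Monotone fun i => (f i).1 := monotone_nat_of_le_succ fun i => le_sup_left
  refine ⟨fun i => (f i).1, hmono, fun i => (f i).2.1, fun i => (f i).2.2,
    fun m y hy hyn => (hd m (f m)).2.2.1 y hy hyn, ?_⟩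
  intro p hp hp2 n
  obtain ⟨m, hm, hpm⟩ := oddPrime_eq p hp hp2 n
  refine ⟨m + 1, ?_⟩
  intro k Ω _ _ _ _ _ ι hk
  obtain ⟨x, hx, hdeg⟩ := (hd m (f m)).2.2.2 k Ω ι (by rw [hpm]; exact hk)
  exact ⟨x, (le_sup_right : d m (f m) ≤ (f m).1 ⊔ d m (f m)) hx, hm.trans hdeg⟩

/-- **The field.** -/
theorem exists_field : ∃ F : IntermediateField ℚ Qb, Stable F ∧
    (∀ B : ℝ, {y : Qb | y ∈ F ∧ ht y ≤ B}.Finite) ∧
    ∀ p : ℕ, p.Prime → p ≠ 2 → ∀ n : ℕ, LocBig F p n := by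
  obtain ⟨F, hmono, hfd, hst, hht, hloc⟩ := exists_tower
  have hmem : ∀ x, x ∈ (⨆ i, F i : IntermediateField ℚ Qb) ↔ ∃ i, x ∈ F i := by
    intro x
    rw [← SetLike.mem_coe, IntermediateField.coe_iSup_of_directed hmono.directed_le, Set.mem_iUnion]
    rfl
  refine ⟨⨆ i, F i, ?_, ?_, ?_⟩
  · intro σ x hx
    obtain ⟨i, hi⟩ := (hmem x).mp hx
    exact (hmem _).mpr ⟨i, hst i σ x hi⟩
  · intro B
    obtain ⟨N, hN⟩ := exists_nat_gt B
    have := hfd N
    refine (Pool.Agent.H58W.northcott (finrank ℚ (F N)) B).subset ?_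
    rintro y ⟨hy, hyB⟩
    have hyN : y ∈ F N := by
      obtain ⟨j, hj⟩ := (hmem y).mp hy
      have key : ∀ l, y ∈ F (N + l) → y ∈ F N := by
        intro l
        induction l with
        | zero => exact id
        | succ l ih =>
          intro h
          by_contra hcon
          have h1 : y ∉ F (N + l) := fun h2 => hcon (ih h2)
          have h2 := hht (N + l) y h h1
          push_cast at h2
          have h3 : (0 : ℝ) ≤ l := Nat.cast_nonneg l
          linarith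
      exact key j (hmono (Nat.le_add_left j N) hj)
    refine ⟨?_, hyB⟩
    have e : minpoly ℚ y = minpoly ℚ (⟨y, hyN⟩ : F N) := by
      rw [← minpoly.algebraMap_eq (algebraMap (F N) Qb).injective]
      rfl
    rw [e]
    exact minpoly.natDegree_le _
  · intro p hp hp2 n k Ω _ _ _ _ _ ι hk
    obtain ⟨m, hm⟩ := hloc p hp hp2 n
    obtain ⟨x, hx, hdeg⟩ := hm k Ω ι hk
    exact ⟨x, (hmem x).mpr ⟨m, hx⟩, hdeg⟩

end Pool.Agent.Y726
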