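import Mathlib
import Pool.Agent.Y726.Tower

set_option autoImplicit false

/-!
# Completions of the field of rational numbers
-/

namespace Pool.Agent.Y726

open Polynomial IntermediateField Module NumberField IsDedekindDomain
open Pool.Agent.H58P (Qb ht qb_isIntegral)

noncomputable abbrev K0 : IntermediateField ℚ Qb := ⊥

instance nfK0 : NumberField K0 :=
  { to_charZero := inferInstance
    to_finiteDimensional := inferInstance }

lemma exists_int (a : 𝓞 K0) : ∃ n : ℤ, a = n := by
  obtain ⟨c, hc⟩ := IntermediateField.mem_bot.mp (a : K0).2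
  have h1 : IsIntegral ℤ c := by
    rw [← isIntegral_algebraMap_iff (algebraMap ℚ Qb).injective, hc]
    exact a.isIntegral_coe.map (algebraMap K0 Qb).toIntAlgHom
  obtain ⟨n, hn⟩ := IsIntegrallyClosed.isIntegral_iff.mp h1
  refine ⟨n, ?_⟩
  apply RingOfIntegers.coe_injective
  apply Subtype.ext
  rw [← hc, ← hn]
  simp

lemma exists_int_close (v : HeightOneSpectrum (𝓞 K0)) (x : v.adicCompletion K0)
    (hx : Valued.v x ≤ 1) : ∃ n : ℤ, Valued.v (x - (n : v.adicCompletion K0)) < 1 := by
  -- an element of `K0` which is close to `x`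
  have h1 : IsOpen {y : v.adicCompletion K0 | Valued.v (y - x) < 1} := by
    have h2 := Valued.isOpen_ball (v.adicCompletion K0) 1
    have h3 : IsOpen ((fun y : v.adicCompletion K0 => y - x) ⁻¹'
      {z : v.adicCompletion K0 | Valued.v z < 1}) := by
      refine IsOpen.preimage (by fun_prop) ?_
      simpa using h2
    exact h3
  have hdense := HeightOneSpectrum.denseRange_algebraMap K0 v
  obtain ⟨y, hy⟩ := hdense.exists_mem_open h1 ⟨x, by simp⟩
  have hy' : Valued.v ((algebraMap K0 (v.adicCompletion K0)) y - x) < 1 := hy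
  have hvy : v.valuation K0 y ≤ 1 := by
    have h4 : Valued.v ((algebraMap K0 (v.adicCompletion K0)) y) ≤ 1 := by
      have h5 : (algebraMap K0 (v.adicCompletion K0)) y =
        ((algebraMap K0 (v.adicCompletion K0)) y - x) + x := by ring
      rw [h5]
      exact (Valuation.map_add _ _ _).trans (max_le hy'.le hx)
    rwa [HeightOneSpectrum.algebraMap_adicCompletion, Function.comp_apply,
      HeightOneSpectrum.valuedAdicCompletion_eq_valuation'] at h4
  obtain ⟨a, ha⟩ := v.exists_valuation_sub_lt_of_integer (K := K0) hvy 1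
  obtain ⟨n, rfl⟩ := exists_int a
  refine ⟨n, ?_⟩
  have h6 : Valued.v ((algebraMap K0 (v.adicCompletion K0)) y - (n : v.adicCompletion K0)) < 1 := by
    have h7 : (algebraMap K0 (v.adicCompletion K0)) y - (n : v.adicCompletion K0) =
      algebraMap K0 (v.adicCompletion K0) (-(algebraMap (𝓞 K0) K0 (n : 𝓞 K0) - y)) := by
      rw [map_neg, map_sub]
      simp
    rw [h7, map_neg, Valuation.map_neg, HeightOneSpectrum.algebraMap_adicCompletion,
      Function.comp_apply, HeightOneSpectrum.valuedAdicCompletion_eq_valuation']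
    simpa using ha
  have h8 : x - (n : v.adicCompletion K0) =
      ((algebraMap K0 (v.adicCompletion K0)) y - n) - ((algebraMap K0 (v.adicCompletion K0)) y - x) := by
    ring
  rw [h8]
  exact Valuation.map_sub_lt _ h6 hy'

lemma val_int_lt (v : HeightOneSpectrum (𝓞 K0)) (n : ℤ) :
    Valued.v (n : v.adicCompletion K0) < 1 ↔ (n : 𝓞 K0) ∈ v.asIdeal := by
  rw [← map_intCast (algebraMap K0 (v.adicCompletion K0)) n,
    HeightOneSpectrum.algebraMap_adicCompletion, Function.comp_apply,
    HeightOneSpectrum.valuedAdicCompletion_eq_valuation']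
  have h1 : algebraMap K0 K0 (n : K0) = algebraMap (𝓞 K0) K0 (n : 𝓞 K0) := by simp
  rw [h1, HeightOneSpectrum.valuation_lt_one_iff_mem]

lemma val_int_le (v : HeightOneSpectrum (𝓞 K0)) (n : ℤ) :
    Valued.v (n : v.adicCompletion K0) ≤ 1 := by
  rw [← map_intCast (algebraMap K0 (v.adicCompletion K0)) n,
    HeightOneSpectrum.algebraMap_adicCompletion, Function.comp_apply,
    HeightOneSpectrum.valuedAdicCompletion_eq_valuation']
  have h1 : algebraMap K0 K0 (n : K0) = algebraMap (𝓞 K0) K0 (n : 𝓞 K0) := by simp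
  rw [h1]
  exact v.valuation_le_one _

lemma nonsquare (v : HeightOneSpectrum (𝓞 K0)) (p : ℕ) (hp : p.Prime)
    (hpv : (p : 𝓞 K0) ∈ v.asIdeal) (q : ℕ) (hq : ¬ IsSquare (q : ZMod p)) :
    ¬ IsSquare (q : v.adicCompletion K0) := by
  rintro ⟨x, hx⟩
  have hx1 : Valued.v x ≤ 1 := by
    by_contra hcon
    push Not at hcon
    have h1 := congrArg (Valued.v (R := v.adicCompletion K0)) hx
    rw [map_mul] at h1
    have h2 := val_int_le v q
    rw [Int.cast_natCast, h1] at h2
    have h3 : (1 : WithZero (Multiplicative ℤ)) < Valued.v x * Valued.v x :=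
      one_lt_mul'' hcon hcon
    exact absurd h2 (not_le.mpr h3)
  obtain ⟨n, hn⟩ := exists_int_close v x hx1
  have h1 : Valued.v (((q - n ^ 2 : ℤ)) : v.adicCompletion K0) < 1 := by
    have h2 : (((q - n ^ 2 : ℤ)) : v.adicCompletion K0) = (x - n) * (x + n) := by
      push_cast
      rw [hx]
      ring
    rw [h2, map_mul]
    have h3 : Valued.v (x + (n : v.adicCompletion K0)) ≤ 1 :=
      (Valuation.map_add _ _ _).trans (max_le hx1 (val_int_le v n))
    calc _ ≤ Valued.v (x - (n : v.adicCompletion K0)) * 1 := by gcongr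
      _ < 1 := by rw [mul_one]; exact hn
  rw [val_int_lt] at h1
  have h2 : (p : ℤ) ∣ (q - n ^ 2 : ℤ) := by
    by_contra hcon
    have hpp : Prime (p : ℤ) := Nat.prime_iff_prime_int.mp hp
    have h3 : IsCoprime (p : ℤ) (q - n ^ 2 : ℤ) := (hpp.coprime_iff_not_dvd).mpr hcon
    obtain ⟨a, b, hab⟩ := h3
    have h4 : (1 : 𝓞 K0) ∈ v.asIdeal := by
      have h5 : (1 : 𝓞 K0) = (a : 𝓞 K0) * (p : 𝓞 K0) + (b : 𝓞 K0) * (((q - n ^ 2 : ℤ)) : 𝓞 K0) := by
        have := congrArg (fun z : ℤ => (z : 𝓞 K0)) hab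
        push_cast at this ⊢
        exact this.symm
      rw [h5]
      exact v.asIdeal.add_mem (Ideal.mul_mem_left _ _ hpv) (Ideal.mul_mem_left _ _ h1)
    exact v.isPrime.ne_top ((Ideal.eq_top_iff_one _).mpr h4)
  apply hq
  refine ⟨(n : ZMod p), ?_⟩
  have h3 : (((q - n ^ 2 : ℤ)) : ZMod p) = 0 := (ZMod.intCast_zmod_eq_zero_iff_dvd _ _).mpr h2
  push_cast at h3
  rw [← sq]
  exact sub_eq_zero.mp h3

lemma exists_prime (v : HeightOneSpectrum (𝓞 K0)) : ∃ p : ℕ, p.Prime ∧ (p : 𝓞 K0) ∈ v.asIdeal := by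
  have h1 : ∃ n : ℕ, n ≠ 0 ∧ (n : 𝓞 K0) ∈ v.asIdeal := by
    obtain ⟨a, ha, ha0⟩ := Submodule.exists_mem_ne_zero_of_ne_bot v.ne_bot
    obtain ⟨n, rfl⟩ := exists_int a
    have hn0 : n ≠ 0 := by
      rintro rfl
      simp at ha0
    refine ⟨n.natAbs, Int.natAbs_ne_zero.mpr hn0, ?_⟩
    rcases Int.natAbs_eq n with h | h
    · rw [h] at ha
      simpa using ha
    · rw [h] at ha
      simpa using ha
  obtain ⟨n, hn0, hn⟩ := h1
  induction n using Nat.recOnMul with
  | zero => exact absurd rfl hn0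
  | one =>
    exfalso
    rw [Nat.cast_one] at hn
    exact v.isPrime.ne_top ((Ideal.eq_top_iff_one _).mpr hn)
  | prime p hp => exact ⟨p, hp, hn⟩
  | mul a b iha ihb =>
    rw [Nat.cast_mul] at hn
    rcases v.isPrime.mem_or_mem hn with h | h
    · exact iha (left_ne_zero_of_mul hn0) h
    · exact ihb (right_ne_zero_of_mul hn0) h

lemma finite_two : {v : HeightOneSpectrum (𝓞 K0) | (2 : 𝓞 K0) ∈ v.asIdeal}.Finite := by
  have h1 : (Ideal.span {(2 : 𝓞 K0)}) ≠ 0 := by
    rw [Ne, Ideal.zero_eq_bot, Ideal.span_singleton_eq_bot]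
    exact two_ne_zero
  refine (Ideal.finite_factors h1).subset ?_
  intro v hv
  show v.asIdeal ∣ _
  rw [Ideal.dvd_span_singleton]
  exact hv

/-- infinite local degrees -/
theorem local_infinite (F : IntermediateField K0 Qb) (F₀ : IntermediateField ℚ Qb)
    (hFF : ∀ x ∈ F₀, x ∈ F)
    (hF : ∀ p : ℕ, p.Prime → p ≠ 2 → ∀ n : ℕ, LocBig F₀ p n) (v : HeightOneSpectrum (𝓞 K0))
    (hv : (2 : 𝓞 K0) ∉ v.asIdeal) :
    ¬ ∀ ι : Qb →ₐ[K0] AlgebraicClosure (v.adicCompletion K0),
      FiniteDimensional (v.adicCompletion K0)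
        (IntermediateField.adjoin (v.adicCompletion K0) (ι '' (F : Set Qb))) := by
  intro hall
  have halg : Algebra.IsAlgebraic K0 Qb :=
    ⟨fun z => ((qb_isIntegral z).tower_top (A := K0)).isAlgebraic⟩
  let ι : Qb →ₐ[K0] AlgebraicClosure (v.adicCompletion K0) := IsAlgClosed.lift
  have hfd := hall ι
  obtain ⟨p, hp, hpv⟩ := exists_prime v
  have hp2 : p ≠ 2 := by
    rintro rfl
    exact hv (by exact_mod_cast hpv)
  have hchar : CharZero (v.adicCompletion K0) :=
    charZero_of_injective_algebraMap (algebraMap K0 (v.adicCompletion K0)).injective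
  obtain ⟨x, hx, hdeg⟩ := hF p hp hp2
    (finrank (v.adicCompletion K0) (IntermediateField.adjoin (v.adicCompletion K0)
      (ι '' (F : Set Qb))) + 1) (v.adicCompletion K0) (AlgebraicClosure (v.adicCompletion K0))
      (ι : Qb →+* _) (nonsquare v p hp hpv)
  set E := IntermediateField.adjoin (v.adicCompletion K0) (ι '' (F : Set Qb)) with hE
  have hxE : ι x ∈ E := IntermediateField.subset_adjoin _ _ ⟨x, hFF x hx, rfl⟩
  have h1 : minpoly (v.adicCompletion K0) (ι x) = minpoly (v.adicCompletion K0) (⟨ι x, hxE⟩ : E) := by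
    rw [← minpoly.algebraMap_eq
      (algebraMap E (AlgebraicClosure (v.adicCompletion K0))).injective]
    rfl
  have hdeg' : finrank (v.adicCompletion K0) E + 1 ≤
    (minpoly (v.adicCompletion K0) (ι x)).natDegree := hdeg
  rw [h1] at hdeg'
  have h2 := minpoly.natDegree_le (A := v.adicCompletion K0) (⟨ι x, hxE⟩ : E)
  omega

/-- the field as an extension of the rational numbers inside `Qb` -/
noncomputable def ext (F : IntermediateField ℚ Qb) : IntermediateField K0 Qb :=
  IntermediateField.extendScalars (bot_le : K0 ≤ F)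

lemma mem_ext (F : IntermediateField ℚ Qb) (x : Qb) : x ∈ ext F ↔ x ∈ F := Iff.rfl

lemma galois_ext (F : IntermediateField ℚ Qb) (hst : Stable F) : IsGalois K0 (ext F) := by
  have halg : Algebra.IsAlgebraic K0 Qb :=
    ⟨fun z => ((qb_isIntegral z).tower_top (A := K0)).isAlgebraic⟩
  have hcl : IsAlgClosure K0 Qb := ⟨inferInstance, halg⟩
  have hnorm : Normal K0 Qb := IsAlgClosure.normal K0 Qb
  have hnormF : Normal K0 (ext F) := by
    rw [IntermediateField.normal_iff_forall_map_le']
    intro σ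
    rintro _ ⟨y, hy, rfl⟩
    exact hst (σ.restrictScalars ℚ) y hy
  exact ⟨⟩

end Pool.Agent.Y726
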