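import Mathlib
import Pool.Agent.H58W.HtLimit
import Pool.Agent.W70.LD.Mahler

set_option autoImplicit false

/-!
# Points of small canonical height have bounded height
-/

namespace Pool.Agent.Y726

open Polynomial Filter Topology
open Pool.Agent.H58P (Qb ht)
open Pool.Agent.H58W (hM lift hev height_lower iterate_lower absLogHeight_pair)
open Pool.Agent.Helper259.AbsHt

theorem small_limit (P Q : Qb[X]) (d : ℕ) (hd : max P.natDegree Q.natDegree = d)
    (hd2 : 2 ≤ d) (hco : IsCoprime P Q) :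
    ∃ C : ℝ, ∀ (α : Qb) (L : ℝ), L < 1 →
      Tendsto (fun n : ℕ => hM (((lift P Q d)^[n] (α, 1)).1 / ((lift P Q d)^[n] (α, 1)).2) /
        (d : ℝ) ^ n) atTop (𝓝 L) → ht α ≤ C := by
  obtain ⟨C, hC⟩ := height_lower P Q d hd (by omega) hco
  have hC' : ∀ x y : Qb, d * absLogHeight ![x, y] ≤ max C 0 +
      absLogHeight ![hev P d x y, hev Q d x y] := fun x y =>
    (hC x y).trans (by linarith [le_max_left C 0])
  refine ⟨max C 0 + 1, fun α L hL hlim => ?_⟩
  have hd2' : (2 : ℝ) ≤ d := by exact_mod_cast hd2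
  obtain ⟨n, hn1⟩ := (hlim.eventually_lt_const hL).exists
  have hdn : (0 : ℝ) < (d : ℝ) ^ n := by positivity
  rw [div_lt_one hdn] at hn1
  have h3 := iterate_lower P Q d (max C 0) hd2 (le_max_right _ _) hC' (α, 1) n
  rw [absLogHeight_pair ((lift P Q d)^[n] (α, 1)).1] at h3
  have h4 := Pool.Agent.W70.LD.ht_le_hM
    (((lift P Q d)^[n] (α, 1)).1 / ((lift P Q d)^[n] (α, 1)).2)
  have h5 : ht (((lift P Q d)^[n] (α, 1)).1 / ((lift P Q d)^[n] (α, 1)).2) =
    absLogHeight ![1, ((lift P Q d)^[n] (α, 1)).1 / ((lift P Q d)^[n] (α, 1)).2] := rfl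
  have h6 : (d : ℝ) ^ n * absLogHeight ![α, 1] ≤ (d : ℝ) ^ n * (max C 0 + 1) := by
    have h7 : max C 0 * ((d : ℝ) ^ n - 1) ≤ max C 0 * (d : ℝ) ^ n := by
      have := le_max_right C 0
      nlinarith
    have h8 : (d : ℝ) ^ n * absLogHeight ![α, 1] ≤ max C 0 * ((d : ℝ) ^ n - 1) + _ := h3
    rw [← h5] at h8
    linarith
  have h7 := le_of_mul_le_mul_left h6 hdn
  have h8 : absLogHeight ![1, α] = absLogHeight ![α, 1] := by
    have := absLogHeight_pair α 1
    rw [div_one] at this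
    exact this.symm
  show absLogHeight ![1, α] ≤ _
  rw [h8]
  exact h7

end Pool.Agent.Y726
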