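import Pool.Agent.Y743.AF.Stm
import Pool.Agent.TH572.Saw4846
import Pool.Agent.Helper256.KM.Mertens
import Pool.Agent.H370R2.NT

/-!
# Project AF: the twisted Mertens sum is bounded
-/

set_option autoImplicit false

open Complex Filter MeasureTheory Set

namespace Pool.Agent.Y726.TM


/-- the point on the line -/
noncomputable def zc (c : ℝ) : ℂ := 1 + c * I

lemma zc_re (c : ℝ) : (zc c).re = 1 := by simp [zc]

lemma zc_im (c : ℝ) : (zc c).im = c := by simp [zc]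

lemma zc_ne {c : ℝ} (hc : c ≠ 0) : zc c ≠ 1 := by
  intro h
  have := congrArg Complex.im h
  rw [zc_im] at this
  simp at this
  exact hc this

lemma one_sub (c : ℝ) : 1 - zc c = ((-c : ℝ) : ℂ) * I := by
  unfold zc; push_cast; ring

lemma norm_one_sub (c : ℝ) : ‖1 - zc c‖ = |c| := by
  rw [one_sub, norm_mul, Complex.norm_I, mul_one, Complex.norm_real, Real.norm_eq_abs, abs_neg]

/-- partial sums -/
noncomputable def Z (c : ℝ) (n : ℕ) : ℂ := ∑ k ∈ Finset.Icc 1 n, (k : ℂ) ^ (-zc c)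

/-- the constant in the error term -/
noncomputable def K (c : ℝ) : ℝ := ‖zc c‖ + 1

lemma K_pos (c : ℝ) : 0 < K c := by unfold K; positivity

lemma Z_bound {c : ℝ} (hc : c ≠ 0) {y : ℝ} (hy : 0 < y) :
    ‖Z c ⌊y⌋₊ - riemannZeta (zc c) - (y : ℂ) ^ (1 - zc c) / (1 - zc c)‖ ≤ K c / y := by
  have h := Pool.Agent.TH572.Saw.em (s := zc c) (by rw [zc_re]; norm_num) (zc_ne hc) hy
  have h1 : Z c ⌊y⌋₊ - riemannZeta (zc c) - (y : ℂ) ^ (1 - zc c) / (1 - zc c) =
      (zc c * ∫ u in Ioi y, ((Int.fract u - 1 / 2 : ℝ) : ℂ) * (u : ℂ) ^ (-zc c - 1)) -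
        ((Int.fract y - 1 / 2 : ℝ) : ℂ) * (y : ℂ) ^ (-zc c) := by
    unfold Z
    linear_combination h
  rw [h1]
  have hn : ∀ u : ℝ, |Int.fract u - 1 / 2| ≤ 1 := by
    intro u
    have := Int.fract_nonneg u
    have := Int.fract_lt_one u
    rw [abs_le]; constructor <;> linarith
  have h2 : ‖∫ u in Ioi y, ((Int.fract u - 1 / 2 : ℝ) : ℂ) * (u : ℂ) ^ (-zc c - 1)‖ ≤
      ∫ u in Ioi y, u ^ (-2 : ℝ) := by
    refine norm_integral_le_of_norm_le (integrableOn_Ioi_rpow_of_lt (by norm_num) hy) ?_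
    refine (ae_restrict_mem measurableSet_Ioi).mono fun u hu => ?_
    have hu0 : 0 < u := hy.trans hu
    rw [norm_mul, Complex.norm_real, Real.norm_eq_abs, Complex.norm_cpow_eq_rpow_re_of_pos hu0]
    have e1 : (-zc c - 1).re = -2 := by rw [Complex.sub_re, Complex.neg_re, zc_re]; norm_num
    rw [e1]
    calc |Int.fract u - 1 / 2| * u ^ (-2 : ℝ) ≤ 1 * u ^ (-2 : ℝ) := by
          gcongr; exact hn u
      _ = _ := one_mul _
  have h3 : ∫ u in Ioi y, u ^ (-2 : ℝ) = 1 / y := by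
    rw [integral_Ioi_rpow_of_lt (by norm_num) hy]
    rw [show (-2 : ℝ) + 1 = -1 by norm_num, Real.rpow_neg_one]
    field_simp
  rw [h3] at h2
  have h4 : ‖((Int.fract y - 1 / 2 : ℝ) : ℂ) * (y : ℂ) ^ (-zc c)‖ ≤ 1 / y := by
    rw [norm_mul, Complex.norm_real, Real.norm_eq_abs, Complex.norm_cpow_eq_rpow_re_of_pos hy,
      Complex.neg_re, zc_re, Real.rpow_neg_one]
    calc |Int.fract y - 1 / 2| * y⁻¹ ≤ 1 * y⁻¹ := by gcongr; exact hn y
      _ = 1 / y := by rw [one_mul, one_div]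
  refine (norm_sub_le _ _).trans ?_
  rw [norm_mul]
  have h5 : K c / y = ‖zc c‖ * (1 / y) + 1 / y := by unfold K; ring
  rw [h5]
  gcongr

/-- the main term at `y` -/
noncomputable def w (c : ℝ) (y : ℝ) : ℂ := (y : ℂ) ^ (1 - zc c) / (1 - zc c)

lemma norm_w {c : ℝ} {y : ℝ} (hy : 0 < y) : ‖w c y‖ = 1 / |c| := by
  unfold w
  rw [norm_div, norm_one_sub, Complex.norm_cpow_eq_rpow_re_of_pos hy, Complex.sub_re, zc_re,
    Complex.one_re, sub_self, Real.rpow_zero]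

lemma Z_nat {c : ℝ} (hc : c ≠ 0) {n : ℕ} (hn : 1 ≤ n) :
    ‖Z c n - riemannZeta (zc c) - w c n‖ ≤ K c / n := by
  have hn0 : (0 : ℝ) < n := by exact_mod_cast hn
  have := Z_bound hc hn0
  rwa [Nat.floor_natCast] at this

/-- the partial sums are bounded -/
noncomputable def B (c : ℝ) : ℝ := ‖riemannZeta (zc c)‖ + 1 / |c| + K c

lemma B_nonneg (c : ℝ) : 0 ≤ B c := by
  unfold B; have := K_pos c; positivity

lemma Z_le {c : ℝ} (hc : c ≠ 0) (n : ℕ) : ‖Z c n‖ ≤ B c := by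
  rcases Nat.eq_zero_or_pos n with rfl | hn
  · simp [Z]; exact B_nonneg c
  have hn0 : (0 : ℝ) < n := by exact_mod_cast hn
  have hn1 : (1 : ℝ) ≤ n := by exact_mod_cast hn
  have h1 := Z_nat hc hn
  have h2 : Z c n = (Z c n - riemannZeta (zc c) - w c n) + (riemannZeta (zc c) + w c n) := by ring
  rw [h2]
  refine (norm_add_le _ _).trans ?_
  have h3 := norm_add_le (riemannZeta (zc c)) (w c n)
  rw [norm_w hn0] at h3
  have h4 : K c / n ≤ K c := div_le_self (K_pos c).le hn1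
  unfold B
  linarith

/-- the sum with logarithms -/
noncomputable def L (c : ℝ) (N : ℕ) : ℂ :=
  ∑ k ∈ Finset.Icc 1 N, (k : ℂ) ^ (-zc c) * (Real.log k : ℂ)

/-- differences of logarithms -/
noncomputable def dl (j : ℕ) : ℝ := Real.log ((j + 1 : ℕ) : ℝ) - Real.log j

lemma dl_bounds {j : ℕ} (hj : 1 ≤ j) : 0 ≤ dl j ∧ dl j ≤ 1 / j ∧ |dl j - 1 / j| ≤ 1 / (j : ℝ) ^ 2 := by
  have hj0 : (0 : ℝ) < j := by exact_mod_cast hj
  have e1 : dl j = Real.log (1 + 1 / j) := by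
    unfold dl
    rw [← Real.log_div (by positivity) hj0.ne']
    congr 1; push_cast; field_simp
  have h1 : Real.log (1 + 1 / j) ≤ 1 / j := by
    have := Real.log_le_sub_one_of_pos (x := 1 + 1 / (j : ℝ)) (by positivity)
    linarith
  have h2 : 1 - (1 + 1 / (j : ℝ))⁻¹ ≤ Real.log (1 + 1 / j) :=
    Real.one_sub_inv_le_log_of_pos (by positivity)
  have h3 : 1 - (1 + 1 / (j : ℝ))⁻¹ = 1 / (j + 1) := by field_simp; ring
  have h4 : 1 / (j : ℝ) - 1 / (j + 1) ≤ 1 / (j : ℝ) ^ 2 := by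
    rw [div_sub_div _ _ hj0.ne' (by positivity), div_le_div_iff₀ (by positivity) (by positivity)]
    nlinarith
  rw [e1]
  refine ⟨Real.log_nonneg (by have : 0 ≤ 1 / (j : ℝ) := by positivity
                              linarith), h1, ?_⟩
  rw [abs_le]
  constructor
  · rw [h3] at h2; linarith
  · have : 0 ≤ 1 / (j : ℝ) ^ 2 := by positivity
    linarith

lemma Z_succ (c : ℝ) (N : ℕ) : Z c (N + 1) = Z c N + ((N + 1 : ℕ) : ℂ) ^ (-zc c) := by
  unfold Z; rw [Finset.sum_Icc_succ_top (by omega)]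

lemma L_abel (c : ℝ) (N : ℕ) :
    L c (N + 1) = Z c (N + 1) * (Real.log ((N + 1 : ℕ) : ℝ) : ℂ) -
      ∑ j ∈ Finset.Icc 1 N, Z c j * (dl j : ℂ) := by
  induction N with
  | zero => simp [L, Z]
  | succ N ih =>
    have h1 : L c (N + 1 + 1) = L c (N + 1) +
        ((N + 1 + 1 : ℕ) : ℂ) ^ (-zc c) * (Real.log ((N + 1 + 1 : ℕ) : ℝ) : ℂ) := by
      unfold L; rw [Finset.sum_Icc_succ_top (by omega)]
    rw [h1, ih, Finset.sum_Icc_succ_top (by omega), Z_succ c (N + 1)]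
    unfold dl
    push_cast
    ring

lemma sum_dl (N : ℕ) : ∑ j ∈ Finset.Icc 1 N, dl j = Real.log ((N + 1 : ℕ) : ℝ) := by
  induction N with
  | zero => simp
  | succ N ih =>
    rw [Finset.sum_Icc_succ_top (by omega), ih]
    unfold dl
    ring

lemma sum_sq (N : ℕ) : ∑ j ∈ Finset.Icc 1 N, 1 / (j : ℝ) ^ 2 ≤ 2 := by
  rcases Nat.eq_zero_or_pos N with rfl | hN
  · simp
  have h : ∑ j ∈ Finset.Icc 1 N, 1 / (j : ℝ) ^ 2 ≤ 2 - 1 / (N : ℝ) := by
    induction N, hN using Nat.le_induction with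
    | base => norm_num
    | succ N hN ih =>
      rw [Finset.sum_Icc_succ_top (by omega)]
      have hN0 : (0 : ℝ) < N := by exact_mod_cast hN
      have : 1 / (((N + 1 : ℕ) : ℝ)) ^ 2 ≤ 1 / (N : ℝ) - 1 / ((N + 1 : ℕ) : ℝ) := by
        push_cast
        rw [div_sub_div _ _ hN0.ne' (by positivity), div_le_div_iff₀ (by positivity) (by positivity)]
        nlinarith
      linarith
  have : 0 ≤ 1 / (N : ℝ) := by positivity
  linarith

lemma cpow_one_sub {c : ℝ} {j : ℕ} (hj : 1 ≤ j) :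
    w c j * ((1 / (j : ℝ) : ℝ) : ℂ) = (1 - zc c)⁻¹ * (j : ℂ) ^ (-zc c) := by
  have hj0 : (j : ℂ) ≠ 0 := by exact_mod_cast (by omega : j ≠ 0)
  unfold w
  rw [sub_eq_add_neg 1 (zc c), Complex.ofReal_natCast, Complex.cpow_add _ _ hj0, Complex.cpow_one]
  push_cast
  field_simp

/-- asymptotics of the sum with logarithms -/
lemma L_asymp {c : ℝ} (hc : c ≠ 0) (N : ℕ) :
    ‖L c (N + 1) - w c ((N + 1 : ℕ) : ℝ) * (Real.log ((N + 1 : ℕ) : ℝ) : ℂ)‖ ≤
      3 * K c + 2 / |c| + B c / |c| := by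
  have hK := K_pos c
  have hc' : 0 < |c| := abs_pos.2 hc
  set ζ := riemannZeta (zc c) with hζ
  have hsum : ∑ j ∈ Finset.Icc 1 N, Z c j * (dl j : ℂ) =
      ζ * (Real.log ((N + 1 : ℕ) : ℝ) : ℂ) + (1 - zc c)⁻¹ * Z c N +
        ∑ j ∈ Finset.Icc 1 N, w c j * ((dl j - 1 / (j : ℝ) : ℝ) : ℂ) +
        ∑ j ∈ Finset.Icc 1 N, (Z c j - ζ - w c j) * (dl j : ℂ) := by
    rw [← sum_dl N]
    unfold Z
    rw [Finset.mul_sum]
    push_cast
    rw [Finset.mul_sum, ← Finset.sum_add_distrib, ← Finset.sum_add_distrib,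
      ← Finset.sum_add_distrib]
    refine Finset.sum_congr rfl fun j hj => ?_
    have h1 := cpow_one_sub (c := c) (Finset.mem_Icc.1 hj).1
    push_cast at h1
    rw [← h1]
    ring
  have hN0 : (0 : ℝ) < ((N + 1 : ℕ) : ℝ) := by positivity
  rw [L_abel, hsum]
  have e1 : Z c (N + 1) * (Real.log ((N + 1 : ℕ) : ℝ) : ℂ) -
      (ζ * (Real.log ((N + 1 : ℕ) : ℝ) : ℂ) + (1 - zc c)⁻¹ * Z c N +
        ∑ j ∈ Finset.Icc 1 N, w c j * ((dl j - 1 / (j : ℝ) : ℝ) : ℂ) +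
        ∑ j ∈ Finset.Icc 1 N, (Z c j - ζ - w c j) * (dl j : ℂ)) -
      w c ((N + 1 : ℕ) : ℝ) * (Real.log ((N + 1 : ℕ) : ℝ) : ℂ) =
      (Z c (N + 1) - ζ - w c ((N + 1 : ℕ) : ℝ)) * (Real.log ((N + 1 : ℕ) : ℝ) : ℂ) -
        (1 - zc c)⁻¹ * Z c N -
        ∑ j ∈ Finset.Icc 1 N, w c j * ((dl j - 1 / (j : ℝ) : ℝ) : ℂ) -
        ∑ j ∈ Finset.Icc 1 N, (Z c j - ζ - w c j) * (dl j : ℂ) := by ring
  rw [e1]
  have b1 : ‖(Z c (N + 1) - ζ - w c ((N + 1 : ℕ) : ℝ)) * (Real.log ((N + 1 : ℕ) : ℝ) : ℂ)‖ ≤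
      K c := by
    rw [norm_mul, Complex.norm_real, Real.norm_eq_abs]
    have h1 := Z_nat hc (n := N + 1) (by omega)
    have h2 : |Real.log ((N + 1 : ℕ) : ℝ)| ≤ ((N + 1 : ℕ) : ℝ) := by
      rw [abs_of_nonneg (Real.log_natCast_nonneg _)]
      exact (Real.log_le_sub_one_of_pos hN0).trans (by linarith)
    calc _ ≤ K c / ((N + 1 : ℕ) : ℝ) * ((N + 1 : ℕ) : ℝ) := by gcongr
      _ = K c := by field_simp
  have b2 : ‖(1 - zc c)⁻¹ * Z c N‖ ≤ B c / |c| := by
    rw [norm_mul, norm_inv, norm_one_sub]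
    have := Z_le hc N
    calc |c|⁻¹ * ‖Z c N‖ ≤ |c|⁻¹ * B c := by gcongr
      _ = _ := by ring
  have b3 : ‖∑ j ∈ Finset.Icc 1 N, w c j * ((dl j - 1 / (j : ℝ) : ℝ) : ℂ)‖ ≤ 2 / |c| := by
    refine (norm_sum_le _ _).trans ?_
    calc ∑ j ∈ Finset.Icc 1 N, ‖w c j * ((dl j - 1 / (j : ℝ) : ℝ) : ℂ)‖
        ≤ ∑ j ∈ Finset.Icc 1 N, 1 / |c| * (1 / (j : ℝ) ^ 2) := by
          refine Finset.sum_le_sum fun j hj => ?_
          have hj1 := (Finset.mem_Icc.1 hj).1
          have hj0 : (0 : ℝ) < j := by exact_mod_cast hj1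
          rw [norm_mul, norm_w hj0, Complex.norm_real, Real.norm_eq_abs]
          have := (dl_bounds hj1).2.2
          gcongr
      _ = 1 / |c| * ∑ j ∈ Finset.Icc 1 N, 1 / (j : ℝ) ^ 2 := by rw [Finset.mul_sum]
      _ ≤ 1 / |c| * 2 := by have := sum_sq N; gcongr
      _ = 2 / |c| := by ring
  have b4 : ‖∑ j ∈ Finset.Icc 1 N, (Z c j - ζ - w c j) * (dl j : ℂ)‖ ≤ 2 * K c := by
    refine (norm_sum_le _ _).trans ?_
    calc ∑ j ∈ Finset.Icc 1 N, ‖(Z c j - ζ - w c j) * (dl j : ℂ)‖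
        ≤ ∑ j ∈ Finset.Icc 1 N, K c * (1 / (j : ℝ) ^ 2) := by
          refine Finset.sum_le_sum fun j hj => ?_
          have hj1 := (Finset.mem_Icc.1 hj).1
          have hj0 : (0 : ℝ) < j := by exact_mod_cast hj1
          rw [norm_mul, Complex.norm_real, Real.norm_eq_abs, abs_of_nonneg (dl_bounds hj1).1]
          have h1 := Z_nat hc hj1
          have h2 := (dl_bounds hj1).2.1
          calc _ ≤ K c / j * (1 / j) := by
                have := (dl_bounds hj1).1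
                gcongr
            _ = _ := by field_simp
      _ = K c * ∑ j ∈ Finset.Icc 1 N, 1 / (j : ℝ) ^ 2 := by rw [Finset.mul_sum]
      _ ≤ K c * 2 := by have := sum_sq N; gcongr
      _ = 2 * K c := by ring
  have n1 := norm_sub_le ((Z c (N + 1) - ζ - w c ((N + 1 : ℕ) : ℝ)) *
    (Real.log ((N + 1 : ℕ) : ℝ) : ℂ)) ((1 - zc c)⁻¹ * Z c N)
  have n2 := norm_sub_le ((Z c (N + 1) - ζ - w c ((N + 1 : ℕ) : ℝ)) *
    (Real.log ((N + 1 : ℕ) : ℝ) : ℂ) - (1 - zc c)⁻¹ * Z c N)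
    (∑ j ∈ Finset.Icc 1 N, w c j * ((dl j - 1 / (j : ℝ) : ℝ) : ℂ))
  have n3 := norm_sub_le ((Z c (N + 1) - ζ - w c ((N + 1 : ℕ) : ℝ)) *
    (Real.log ((N + 1 : ℕ) : ℝ) : ℂ) - (1 - zc c)⁻¹ * Z c N -
    ∑ j ∈ Finset.Icc 1 N, w c j * ((dl j - 1 / (j : ℝ) : ℝ) : ℂ))
    (∑ j ∈ Finset.Icc 1 N, (Z c j - ζ - w c j) * (dl j : ℂ))
  linarith

/-- the sum over prime powers -/
noncomputable def S (c : ℝ) (N : ℕ) : ℂ :=
  ∑ d ∈ Finset.Icc 1 N, (ArithmeticFunction.vonMangoldt d : ℂ) * (d : ℂ) ^ (-zc c)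

/-- the function `k ↦ k ^ (-z)` -/
noncomputable def eF (c : ℝ) : ArithmeticFunction ℂ :=
  ⟨fun k => if k = 0 then 0 else (k : ℂ) ^ (-zc c), by simp⟩

/-- the function `k ↦ Λ(k) k ^ (-z)` -/
noncomputable def lF (c : ℝ) : ArithmeticFunction ℂ :=
  ⟨fun k => (ArithmeticFunction.vonMangoldt k : ℂ) * (k : ℂ) ^ (-zc c), by simp⟩

lemma L_conv (c : ℝ) (N : ℕ) :
    L c N = ∑ d ∈ Finset.Icc 1 N,
      (ArithmeticFunction.vonMangoldt d : ℂ) * (d : ℂ) ^ (-zc c) * Z c (N / d) := by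
  have h := ArithmeticFunction.sum_Ioc_mul_eq_sum_sum (lF c) (eF c) N
  have h1 : ∀ n ∈ Finset.Ioc 0 N, (lF c * eF c) n = (n : ℂ) ^ (-zc c) * (Real.log n : ℂ) := by
    intro n hn
    have hn0 : n ≠ 0 := by have := (Finset.mem_Ioc.1 hn).1; omega
    rw [ArithmeticFunction.mul_apply, ← ArithmeticFunction.vonMangoldt_sum,
      ← Nat.sum_divisorsAntidiagonal (fun i _ => ArithmeticFunction.vonMangoldt i)]
    push_cast
    rw [Finset.mul_sum]
    refine Finset.sum_congr rfl fun x hx => ?_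
    have hx' := Nat.mem_divisorsAntidiagonal.1 hx
    have hx1 : x.1 ≠ 0 := by rintro h0; rw [h0] at hx'; simp at hx'; exact hn0 hx'.1.symm
    have hx2 : x.2 ≠ 0 := by rintro h0; rw [h0] at hx'; simp at hx'; exact hn0 hx'.1.symm
    show (ArithmeticFunction.vonMangoldt x.1 : ℂ) * (x.1 : ℂ) ^ (-zc c) *
      (if x.2 = 0 then 0 else (x.2 : ℂ) ^ (-zc c)) = _
    rw [if_neg hx2, ← hx'.1, Nat.cast_mul, Complex.natCast_mul_natCast_cpow]
    ring
  rw [Finset.sum_congr rfl h1] at h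
  have h2 : ∀ n ∈ Finset.Ioc 0 N, (lF c) n * ∑ m ∈ Finset.Ioc 0 (N / n), (eF c) m =
      (ArithmeticFunction.vonMangoldt n : ℂ) * (n : ℂ) ^ (-zc c) * Z c (N / n) := by
    intro n _
    show (ArithmeticFunction.vonMangoldt n : ℂ) * (n : ℂ) ^ (-zc c) *
      ∑ m ∈ Finset.Ioc 0 (N / n), (if m = 0 then 0 else (m : ℂ) ^ (-zc c)) = _
    congr 1
    refine Finset.sum_congr rfl fun m hm => ?_
    rw [if_neg (by have := (Finset.mem_Ioc.1 hm).1; omega)]
  rw [Finset.sum_congr rfl h2] at h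
  exact h

/-- the sum over prime powers is bounded -/
lemma S_bound {c : ℝ} (hc : c ≠ 0) : ∃ C : ℝ, ∀ N : ℕ, ‖S c N‖ ≤ C := by
  have hζ : riemannZeta (zc c) ≠ 0 :=
    riemannZeta_ne_zero_of_one_le_re (by rw [zc_re])
  have hζ' : 0 < ‖riemannZeta (zc c)‖ := norm_pos_iff.2 hζ
  have hc' : 0 < |c| := abs_pos.2 hc
  have hK := K_pos c
  have hB := B_nonneg c
  refine ⟨(3 * K c + 2 / |c| + B c / |c| + 6 / |c| + K c * (Real.log 4 + 4)) /
    ‖riemannZeta (zc c)‖, fun N => ?_⟩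
  have hl4 : 0 ≤ Real.log 4 := Real.log_nonneg (by norm_num)
  rcases Nat.eq_zero_or_pos N with rfl | hN
  · simp only [S, Finset.Icc_eq_empty_of_lt (by norm_num : (0 : ℕ) < 1), Finset.sum_empty,
      norm_zero]
    positivity
  have hN0 : (0 : ℝ) < N := by exact_mod_cast hN
  rw [le_div_iff₀ hζ', ← norm_mul]
  -- the main identity
  have hid : S c N * riemannZeta (zc c) =
      (L c N - w c N * (Real.log N : ℂ)) -
      w c N * ((∑ d ∈ Finset.Icc 1 N, ArithmeticFunction.vonMangoldt d / d - Real.log N : ℝ) : ℂ) -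
      ∑ d ∈ Finset.Icc 1 N, (ArithmeticFunction.vonMangoldt d : ℂ) * (d : ℂ) ^ (-zc c) *
        (Z c (N / d) - riemannZeta (zc c) - w c ((N : ℝ) / d)) := by
    have h1 : ∀ d ∈ Finset.Icc 1 N,
        (ArithmeticFunction.vonMangoldt d : ℂ) * (d : ℂ) ^ (-zc c) *
        (Z c (N / d) - riemannZeta (zc c) - w c ((N : ℝ) / d)) =
        (ArithmeticFunction.vonMangoldt d : ℂ) * (d : ℂ) ^ (-zc c) * Z c (N / d) -
        (ArithmeticFunction.vonMangoldt d : ℂ) * (d : ℂ) ^ (-zc c) * riemannZeta (zc c) -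
        w c N * ((ArithmeticFunction.vonMangoldt d / d : ℝ) : ℂ) := by
      intro d hd
      have hd1 := (Finset.mem_Icc.1 hd).1
      have hd0 : (0 : ℝ) < d := by exact_mod_cast hd1
      have hdc : (d : ℂ) ≠ 0 := by exact_mod_cast hd0.ne'
      have h2 : (d : ℂ) ^ (-zc c) * w c ((N : ℝ) / d) = w c N / d := by
        unfold w
        have h3 : (((N : ℝ) / d : ℝ) : ℂ) ^ (1 - zc c) = (N : ℂ) ^ (1 - zc c) / (d : ℂ) ^ (1 - zc c) := by
          rw [Complex.ofReal_div, Complex.div_cpow_ofReal_nonneg hN0.le hd0.le]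
          simp
        rw [h3, sub_eq_add_neg 1 (zc c), Complex.cpow_add _ _ hdc, Complex.cpow_one,
          Complex.ofReal_natCast]
        have h4 : (d : ℂ) ^ (-zc c) ≠ 0 := by
          rw [Complex.cpow_ne_zero_iff]
          exact Or.inl hdc
        field_simp
      push_cast
      rw [mul_sub, mul_sub, mul_assoc _ _ (w c _), h2]
      ring
    rw [Finset.sum_congr rfl h1, Finset.sum_sub_distrib, Finset.sum_sub_distrib, ← L_conv,
      ← Finset.sum_mul, ← Finset.mul_sum]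
    unfold S
    push_cast
    ring
  rw [hid]
  have b1 : ‖L c N - w c N * (Real.log N : ℂ)‖ ≤ 3 * K c + 2 / |c| + B c / |c| := by
    obtain ⟨M, rfl⟩ : ∃ M, N = M + 1 := ⟨N - 1, by omega⟩
    exact L_asymp hc M
  have b2 : ‖w c N * ((∑ d ∈ Finset.Icc 1 N, ArithmeticFunction.vonMangoldt d / d -
      Real.log N : ℝ) : ℂ)‖ ≤ 6 / |c| := by
    rw [norm_mul, norm_w hN0, Complex.norm_real, Real.norm_eq_abs]
    have h1 := H370.nt_mertens_lower N hN
    have h2 := H370.nt_mertens_upper N hN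
    have h3 : |∑ d ∈ Finset.Icc 1 N, ArithmeticFunction.vonMangoldt d / d - Real.log N| ≤ 6 := by
      rw [abs_le]; constructor <;> linarith
    calc _ ≤ 1 / |c| * 6 := by gcongr
      _ = 6 / |c| := by ring
  have b3 : ‖∑ d ∈ Finset.Icc 1 N, (ArithmeticFunction.vonMangoldt d : ℂ) * (d : ℂ) ^ (-zc c) *
        (Z c (N / d) - riemannZeta (zc c) - w c ((N : ℝ) / d))‖ ≤ K c * (Real.log 4 + 4) := by
    refine (norm_sum_le _ _).trans ?_
    calc ∑ d ∈ Finset.Icc 1 N, ‖(ArithmeticFunction.vonMangoldt d : ℂ) * (d : ℂ) ^ (-zc c) *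
        (Z c (N / d) - riemannZeta (zc c) - w c ((N : ℝ) / d))‖
        ≤ ∑ d ∈ Finset.Icc 1 N, K c / N * ArithmeticFunction.vonMangoldt d := by
          refine Finset.sum_le_sum fun d hd => ?_
          have hd1 := (Finset.mem_Icc.1 hd).1
          have hd0 : (0 : ℝ) < d := by exact_mod_cast hd1
          have h1 := Z_bound hc (y := (N : ℝ) / d) (by positivity)
          rw [Nat.floor_div_eq_div] at h1
          have hΛ := ArithmeticFunction.vonMangoldt_nonneg (n := d)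
          rw [norm_mul, norm_mul, Complex.norm_real, Real.norm_eq_abs, abs_of_nonneg hΛ,
            Complex.norm_natCast_cpow_of_pos hd1, Complex.neg_re, zc_re, Real.rpow_neg_one]
          calc _ ≤ ArithmeticFunction.vonMangoldt d * (d : ℝ)⁻¹ * (K c / ((N : ℝ) / d)) := by
                gcongr
                exact h1
            _ = _ := by field_simp
      _ = K c / N * ∑ d ∈ Finset.Icc 1 N, ArithmeticFunction.vonMangoldt d := by
          rw [Finset.mul_sum]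
      _ ≤ K c / N * ((Real.log 4 + 4) * N) := by
          have h1 := Chebyshev.psi_le_const_mul_self (x := (N : ℝ)) hN0.le
          unfold Chebyshev.psi at h1
          rw [Nat.floor_natCast] at h1
          have h2 : Finset.Icc 1 N = Finset.Ioc 0 N := rfl
          rw [h2]
          gcongr
      _ = _ := by field_simp
  have n1 := norm_sub_le (L c N - w c N * (Real.log N : ℂ))
    (w c N * ((∑ d ∈ Finset.Icc 1 N, ArithmeticFunction.vonMangoldt d / d - Real.log N : ℝ) : ℂ))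
  have n2 := norm_sub_le (L c N - w c N * (Real.log N : ℂ) -
    w c N * ((∑ d ∈ Finset.Icc 1 N, ArithmeticFunction.vonMangoldt d / d - Real.log N : ℝ) : ℂ))
    (∑ d ∈ Finset.Icc 1 N, (ArithmeticFunction.vonMangoldt d : ℂ) * (d : ℂ) ^ (-zc c) *
        (Z c (N / d) - riemannZeta (zc c) - w c ((N : ℝ) / d)))
  linarith

lemma re_pow {c : ℝ} {p : ℕ} (hp : 1 ≤ p) :
    ((p : ℂ) ^ (-zc c)).re = Real.cos (c * Real.log p) / p := by
  have hp0 : (0 : ℝ) < p := by exact_mod_cast hp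
  have hpc : (p : ℂ) ≠ 0 := by exact_mod_cast hp0.ne'
  have h1 : -zc c = -1 + ((-c : ℝ) : ℂ) * I := by unfold zc; push_cast; ring
  rw [h1, Complex.cpow_add _ _ hpc, Complex.cpow_neg_one]
  have h2 : (p : ℂ) ^ (((-c : ℝ) : ℂ) * I) = Complex.exp (((-c * Real.log p : ℝ) : ℂ) * I) := by
    rw [Complex.cpow_def_of_ne_zero hpc, ← Complex.natCast_log]
    congr 1; push_cast; ring
  rw [h2]
  have h3 : (p : ℂ)⁻¹ = (((p : ℝ)⁻¹ : ℝ) : ℂ) := by push_cast; rfl
  rw [h3, Complex.re_ofReal_mul, Complex.exp_ofReal_mul_I_re]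
  rw [neg_mul, Real.cos_neg]
  ring

theorem tm : Pool.Agent.Y743.AF.S_TM := by
  intro c hc
  obtain ⟨C, hC⟩ := S_bound hc
  obtain ⟨C', hC'⟩ := Pool.Agent.Helper256.KM.mertens_log
  have hC0 : 0 ≤ C := (norm_nonneg _).trans (hC 0)
  have hC0' : 0 ≤ C' := (abs_nonneg _).trans (hC' 1 le_rfl)
  refine ⟨C + (6 + C'), fun N => ?_⟩
  rcases Nat.eq_zero_or_pos N with rfl | hN
  · have : Pool.Agent.Y743.AF.Prm 0 = ∅ := by
      unfold Pool.Agent.Y743.AF.Prm; simp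
    rw [this]; simp; positivity
  have hP : Pool.Agent.Y743.AF.Prm N = (Finset.Icc 1 N).filter Nat.Prime := rfl
  rw [hP]
  have h1 : (S c N).re = ∑ d ∈ Finset.Icc 1 N,
      ArithmeticFunction.vonMangoldt d / d * Real.cos (c * Real.log d) := by
    unfold S
    rw [Complex.re_sum]
    refine Finset.sum_congr rfl fun d hd => ?_
    rw [Complex.re_ofReal_mul, re_pow (Finset.mem_Icc.1 hd).1]
    ring
  have hspl := Finset.sum_filter_add_sum_filter_not (Finset.Icc 1 N) Nat.Prime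
    (fun d : ℕ => ArithmeticFunction.vonMangoldt d / d * Real.cos (c * Real.log d))
  have hspl' := Finset.sum_filter_add_sum_filter_not (Finset.Icc 1 N) Nat.Prime
    (fun d : ℕ => ArithmeticFunction.vonMangoldt d / (d : ℝ))
  have e1 : ∑ d ∈ (Finset.Icc 1 N).filter Nat.Prime,
      ArithmeticFunction.vonMangoldt d / d * Real.cos (c * Real.log d) =
      ∑ p ∈ (Finset.Icc 1 N).filter Nat.Prime, Real.log p / p * Real.cos (c * Real.log p) := by
    refine Finset.sum_congr rfl fun p hp => ?_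
    rw [ArithmeticFunction.vonMangoldt_apply_prime (Finset.mem_filter.1 hp).2]
  have e2 : ∑ d ∈ (Finset.Icc 1 N).filter Nat.Prime,
      ArithmeticFunction.vonMangoldt d / (d : ℝ) =
      ∑ p ∈ (Finset.Icc 1 N).filter Nat.Prime, Real.log p / p := by
    refine Finset.sum_congr rfl fun p hp => ?_
    rw [ArithmeticFunction.vonMangoldt_apply_prime (Finset.mem_filter.1 hp).2]
  rw [e1] at hspl
  rw [e2] at hspl'
  have h2 : |∑ d ∈ (Finset.Icc 1 N).filter (fun d => ¬ d.Prime),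
      ArithmeticFunction.vonMangoldt d / d * Real.cos (c * Real.log d)| ≤
      ∑ d ∈ (Finset.Icc 1 N).filter (fun d => ¬ d.Prime),
        ArithmeticFunction.vonMangoldt d / (d : ℝ) := by
    refine (Finset.abs_sum_le_sum_abs _ _).trans (Finset.sum_le_sum fun d _ => ?_)
    have hΛ := ArithmeticFunction.vonMangoldt_nonneg (n := d)
    rw [abs_mul, abs_of_nonneg (by positivity)]
    have := Real.abs_cos_le_one (c * Real.log d)
    calc _ ≤ ArithmeticFunction.vonMangoldt d / (d : ℝ) * 1 := by gcongr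
      _ = _ := mul_one _
  have h3 := H370.nt_mertens_upper N hN
  have h4 := abs_le.1 (hC' N hN)
  have h5 := (Complex.abs_re_le_norm (S c N)).trans (hC N)
  rw [h1, ← hspl] at h5
  have h6 := abs_le.1 h5
  have h7 := abs_le.1 h2
  rw [abs_le]
  constructor
  · linarith [h6.1, h7.2, h4.1]
  · linarith [h6.2, h7.1, h4.1]

end Pool.Agent.Y726.TM
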