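import Pool.Agent.Y743.AF.Stm

/-!
# Project AF: a smooth twisted sum over the primes is small
-/

set_option autoImplicit false

namespace Pool.Agent.Y726.TW

open Pool.Agent.Y743.AF

/-- the weight -/
noncomputable def f (h x : ℝ) : ℝ := Real.sin (h / 2 * x) ^ 2 / x

lemma f_le {h x : ℝ} (hh : 0 < h) (hx : 0 < x) : 0 ≤ f h x ∧ f h x ≤ h / 2 := by
  unfold f
  refine ⟨by positivity, ?_⟩
  rw [div_le_iff₀ hx]
  have h1 : |Real.sin (h / 2 * x)| ≤ 1 := Real.abs_sin_le_one _
  have h2 : |Real.sin (h / 2 * x)| ≤ h / 2 * x := by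
    refine (Real.abs_sin_le_abs).trans ?_
    rw [abs_of_pos (by positivity)]
  rw [← sq_abs]
  have h0 := abs_nonneg (Real.sin (h / 2 * x))
  nlinarith

lemma f_deriv {h x : ℝ} (hx : 0 < x) : HasDerivAt (f h)
    ((2 * Real.sin (h / 2 * x) * (Real.cos (h / 2 * x) * (h / 2)) * x -
      Real.sin (h / 2 * x) ^ 2 * 1) / x ^ 2) x := by
  unfold f
  have h1 : HasDerivAt (fun x : ℝ => h / 2 * x) (h / 2) x := by
    simpa using (hasDerivAt_id x).const_mul (h / 2)
  have h2 := (h1.sin).pow 2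
  have h3 := h2.div (hasDerivAt_id x) hx.ne'
  refine h3.congr_deriv ?_
  simp

lemma f_deriv_bd {h x : ℝ} (hh : 0 < h) (hx : 0 < x) :
    ‖(2 * Real.sin (h / 2 * x) * (Real.cos (h / 2 * x) * (h / 2)) * x -
      Real.sin (h / 2 * x) ^ 2 * 1) / x ^ 2‖ ≤ h ^ 2 := by
  rw [Real.norm_eq_abs, abs_div, abs_of_pos (by positivity : 0 < x ^ 2),
    div_le_iff₀ (by positivity)]
  set s := Real.sin (h / 2 * x)
  set k := Real.cos (h / 2 * x)
  have h2 : |s| ≤ h / 2 * x := by
    refine (Real.abs_sin_le_abs).trans ?_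
    rw [abs_of_pos (by positivity)]
  have hk : |k| ≤ 1 := Real.abs_cos_le_one _
  have hs0 := abs_nonneg s
  have hk0 := abs_nonneg k
  have e1 : |2 * s * (k * (h / 2)) * x| ≤ h * x * (h / 2 * x) := by
    have : 2 * s * (k * (h / 2)) * x = (h * x) * (s * k) := by ring
    rw [this, abs_mul, abs_of_pos (by positivity : 0 < h * x), abs_mul]
    have : |s| * |k| ≤ h / 2 * x := by nlinarith
    gcongr
  have e2 : |s ^ 2 * 1| ≤ (h / 2 * x) ^ 2 := by
    rw [mul_one, abs_pow]
    gcongr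
  have e3 := abs_sub (2 * s * (k * (h / 2)) * x) (s ^ 2 * 1)
  have : h * x * (h / 2 * x) + (h / 2 * x) ^ 2 ≤ h ^ 2 * x ^ 2 := by nlinarith [sq_nonneg (h * x)]
  linarith

lemma f_lip {h x y : ℝ} (hh : 0 < h) (hx : 0 < x) (hxy : x ≤ y) : |f h y - f h x| ≤ h ^ 2 * (y - x) := by
  have hconv : Convex ℝ (Set.Ioi (0 : ℝ)) := convex_Ioi 0
  have := hconv.norm_image_sub_le_of_norm_hasDerivWithin_le (f := f h)
    (f' := fun x => (2 * Real.sin (h / 2 * x) * (Real.cos (h / 2 * x) * (h / 2)) * x -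
      Real.sin (h / 2 * x) ^ 2 * 1) / x ^ 2) (C := h ^ 2)
    (fun z hz => (f_deriv hz).hasDerivWithinAt) (fun z hz => f_deriv_bd hh hz)
    (x := x) (y := y) hx (hx.trans_le hxy)
  rw [Real.norm_eq_abs, Real.norm_eq_abs, abs_of_nonneg (sub_nonneg.2 hxy)] at this
  exact this

/-- the partial sums -/
noncomputable def A (c : ℝ) (n : ℕ) : ℝ := ∑ p ∈ Prm n, Real.log p / p * Real.cos (c * Real.log p)

lemma Prm_succ (n : ℕ) (g : ℕ → ℝ) :
    ∑ p ∈ Prm (n + 1), g p = ∑ p ∈ Prm n, g p + if (n + 1).Prime then g (n + 1) else 0 := by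
  unfold Prm
  rw [Finset.sum_filter, Finset.sum_filter, Finset.sum_Icc_succ_top (by omega)]

lemma abel (c : ℝ) (g : ℕ → ℝ) (n : ℕ) :
    ∑ p ∈ Prm (n + 1), Real.log p / p * Real.cos (c * Real.log p) * g p =
      A c (n + 1) * g (n + 1) - ∑ j ∈ Finset.Icc 2 n, A c j * (g (j + 1) - g j) := by
  induction n with
  | zero =>
    have h1 : Prm 1 = ∅ := by decide
    simp [A, h1]
  | succ n ih =>
    rw [Prm_succ (n + 1), ih]
    have hA : A c (n + 1 + 1) = A c (n + 1) +
        if (n + 1 + 1).Prime then Real.log ((n + 1 + 1 : ℕ) : ℝ) / ((n + 1 + 1 : ℕ) : ℝ) *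
          Real.cos (c * Real.log ((n + 1 + 1 : ℕ) : ℝ)) else 0 := by
      unfold A
      exact Prm_succ (n + 1) (fun p => Real.log p / p * Real.cos (c * Real.log p))
    rcases Nat.eq_zero_or_pos n with rfl | hn
    · have h1 : A c (0 + 1) = 0 := by
        have h1 : Prm (0 + 1) = ∅ := by decide
        unfold A; rw [h1]; simp
      rw [hA, h1]
      simp only [zero_add]
      rw [Finset.Icc_eq_empty_of_lt (by norm_num : (0 : ℕ) < 2),
        Finset.Icc_eq_empty_of_lt (by norm_num : (1 : ℕ) < 2)]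
      split_ifs <;> simp
    · rw [Finset.sum_Icc_succ_top (by omega : 2 ≤ n + 1), hA]
      split_ifs <;> ring

theorem tw (hTM : S_TM) : S_TW := by
  intro c M ε hc hε
  obtain ⟨C, hC⟩ := hTM c hc
  have hC0 : 0 ≤ C := (abs_nonneg _).trans (hC 0)
  set D : ℝ := C * (1 / 2 + |M|) + 1 with hD
  have hD0 : 0 < D := by positivity
  refine ⟨ε / D, div_pos hε hD0, fun h hh hhl X hX => ?_⟩
  have hhD : h * D ≤ ε := by
    rw [lt_div_iff₀ hD0] at hhl; exact hhl.le
  have key : |∑ p ∈ Prm X, Real.sin (h / 2 * Real.log p) ^ 2 / p * Real.cos (c * Real.log p)| ≤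
      C * (h / 2 + h * |M|) := by
    have e1 : ∑ p ∈ Prm X, Real.sin (h / 2 * Real.log p) ^ 2 / p * Real.cos (c * Real.log p) =
        ∑ p ∈ Prm X, Real.log p / p * Real.cos (c * Real.log p) * f h (Real.log p) := by
      refine Finset.sum_congr rfl fun p hp => ?_
      have hp' := (Finset.mem_filter.1 hp).2
      have hl : 0 < Real.log p := Real.log_pos (by exact_mod_cast hp'.one_lt)
      have hp0 : (0 : ℝ) < p := by exact_mod_cast hp'.pos
      unfold f
      field_simp
    rw [e1]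
    rcases Nat.lt_or_ge X 2 with hX2 | hX2
    · have h1 : Prm X = ∅ := by
        unfold Prm
        rw [Finset.filter_eq_empty_iff]
        intro p hp hpp
        have := (Finset.mem_Icc.1 hp).2
        have := hpp.two_le
        omega
      rw [h1]; simp; positivity
    obtain ⟨n, rfl⟩ : ∃ n, X = n + 1 := ⟨X - 1, by omega⟩
    have hab := abel c (fun p => f h (Real.log p)) n
    rw [hab]
    have hln : 0 < Real.log ((n + 1 : ℕ) : ℝ) := Real.log_pos (by exact_mod_cast hX2)
    have b1 : |A c (n + 1) * f h (Real.log ((n + 1 : ℕ) : ℝ))| ≤ C * (h / 2) := by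
      rw [abs_mul]
      have h1 := hC (n + 1)
      have h2 := f_le hh hln
      rw [abs_of_nonneg h2.1]
      exact mul_le_mul h1 h2.2 h2.1 hC0
    have b2 : |∑ j ∈ Finset.Icc 2 n, A c j * (f h (Real.log ((j + 1 : ℕ) : ℝ)) -
        f h (Real.log j))| ≤ C * (h * |M|) := by
      refine (Finset.abs_sum_le_sum_abs _ _).trans ?_
      have t1 : ∀ j ∈ Finset.Icc 2 n, |A c j * (f h (Real.log ((j + 1 : ℕ) : ℝ)) -
          f h (Real.log j))| ≤ C * h ^ 2 * (Real.log ((j + 1 : ℕ) : ℝ) - Real.log j) := by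
        intro j hj
        have hj2 := (Finset.mem_Icc.1 hj).1
        have hl : 0 < Real.log j := Real.log_pos (by exact_mod_cast hj2)
        have hj0 : (0 : ℝ) < j := by positivity
        have hle : Real.log j ≤ Real.log ((j + 1 : ℕ) : ℝ) :=
          Real.log_le_log hj0 (by push_cast; linarith)
        have h1 := f_lip hh hl hle
        rw [abs_mul, mul_assoc]
        exact mul_le_mul (hC j) h1 (abs_nonneg _) hC0
      refine (Finset.sum_le_sum t1).trans ?_
      rw [← Finset.mul_sum]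
      have t2 : ∑ j ∈ Finset.Icc 2 n, (Real.log ((j + 1 : ℕ) : ℝ) - Real.log j) ≤
          Real.log ((n + 1 : ℕ) : ℝ) := by
        have h3 : ∑ j ∈ Finset.Icc 2 n, (Real.log ((j + 1 : ℕ) : ℝ) - Real.log j) ≤
            ∑ j ∈ Finset.Icc 1 n, (Real.log ((j + 1 : ℕ) : ℝ) - Real.log j) := by
          refine Finset.sum_le_sum_of_subset_of_nonneg
            (Finset.Icc_subset_Icc_left (by norm_num)) fun j hj _ => ?_
          have hj0 : (0 : ℝ) < j := by exact_mod_cast (Finset.mem_Icc.1 hj).1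
          exact sub_nonneg.2 (Real.log_le_log hj0 (by push_cast; linarith))
        refine h3.trans (le_of_eq ?_)
        clear h3 t1 b1 hln hab hX hX2 e1
        induction n with
        | zero => simp
        | succ n ih =>
          rw [Finset.sum_Icc_succ_top (by omega), ih]
          ring
      have hM : h * Real.log ((n + 1 : ℕ) : ℝ) ≤ |M| := hX.trans (le_abs_self M)
      calc C * h ^ 2 * ∑ j ∈ Finset.Icc 2 n, (Real.log ((j + 1 : ℕ) : ℝ) - Real.log j)
          ≤ C * h ^ 2 * Real.log ((n + 1 : ℕ) : ℝ) := by gcongr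
        _ = C * (h * (h * Real.log ((n + 1 : ℕ) : ℝ))) := by ring
        _ ≤ C * (h * |M|) := by gcongr
    refine (abs_sub _ _).trans ?_
    rw [mul_add]
    exact add_le_add b1 b2
  refine key.trans ?_
  have : C * (h / 2 + h * |M|) ≤ h * D := by
    rw [hD]; nlinarith
  linarith

end Pool.Agent.Y726.TW
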